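import Mathlib

/-!
Shared definitions for the formalisation of MP_70580c_co (the conjecture on colourful
point sets and translates).  The plane is `ℝ × ℝ`; functionals are also pairs, acting by `pr`.
-/

namespace H40Dol

/-- pairing of a functional `a` with a point `p` -/
def pr (a p : ℝ × ℝ) : ℝ := a.1 * p.1 + a.2 * p.2

/-- determinant -/
def dt (a b : ℝ × ℝ) : ℝ := a.1 * b.2 - a.2 * b.1

/-- support function of `K` -/
noncomputable def hs (K : Set (ℝ × ℝ)) (a : ℝ × ℝ) : ℝ := sSup ((fun p => pr a p) '' K)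

/-- `P` is covered by one translate of `K` -/
def Cov (K P : Set (ℝ × ℝ)) : Prop := ∃ v : ℝ × ℝ, ∀ p ∈ P, p - v ∈ K

/-- A good configuration for `K`: a triangle `u 0, u 1, u 2` (counterclockwise, the origin is the
interior point with barycentric coordinates `o i`), whose sides `u (i+1) - u (i+2)` lie on the
boundary of `K - K` (supporting functional `φ i`, normalised), translates `K + t i` containing
the two vertices `u j`, `j ≠ i`, and the inequality `c3`. Indices are cyclic (in `Fin 3`). -/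
structure Config (K : Set (ℝ × ℝ)) where
  u : Fin 3 → ℝ × ℝ
  t : Fin 3 → ℝ × ℝ
  φ : Fin 3 → ℝ × ℝ
  o : Fin 3 → ℝ
  opos : ∀ i, 0 < o i
  osum : o 0 + o 1 + o 2 = 1
  ocomb : o 0 • u 0 + o 1 • u 1 + o 2 • u 2 = 0
  orient : ∀ i, 0 < dt (u (i + 1)) (u (i + 2))
  mem : ∀ i j, i ≠ j → u j - t i ∈ K
  phi_one : ∀ i, pr (φ i) (u (i + 1) - u (i + 2)) = 1
  phi_sup : ∀ i, hs K (φ i) + hs K (-φ i) = 1
  phi_neg : ∀ i j, i ≠ j → pr (φ i) (u (j + 1) - u (j + 2)) < 0
  c3 : ∀ i, ∀ c : ℝ × ℝ, ∀ s : ℝ, 0 < s → s < 1 → pr c (u (i + 1)) < 0 → pr c (u (i + 2)) < 0 →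
    ¬ (hs K c + pr c (t i) < (1 - s) * pr c (u i) ∧
       (1 - s) * pr c (u i) < (2 * s - 1) * (- pr c (u (i + 1))) ∧
       (1 - s) * pr c (u i) < (2 * s - 1) * (- pr c (u (i + 2))))

/-- The closed cone spanned by `u (i+1)` and `u (i+2)`. -/
def Config.S {K : Set (ℝ × ℝ)} (C : Config K) (i : Fin 3) : Set (ℝ × ℝ) :=
  {p | ∃ b g : ℝ, 0 ≤ b ∧ 0 ≤ g ∧ p = b • C.u (i + 1) + g • C.u (i + 2)}

end H40Dol
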