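import Pool.Agent.H40.Dol.Defs

/-!
# MP_70580c_co: module M6 (Helly and separation)
-/

open Set Pointwise

namespace H40Dol

theorem M6.pr_continuous (a : ℝ × ℝ) : Continuous (fun p => pr a p) := by
  unfold pr
  fun_prop

theorem M6.hs_max (K : Set (ℝ × ℝ)) (hne : K.Nonempty) (hK : IsCompact K) (a : ℝ × ℝ) :
    ∃ p ∈ K, hs K a = pr a p :=
  hK.exists_sSup_image_eq hne (M6.pr_continuous a).continuousOn

/-- three points not coverable give a violated triple of functionals -/
theorem M6.three (K : Set (ℝ × ℝ)) (hne : K.Nonempty) (hK : IsCompact K) (hc : Convex ℝ K)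
    (p q r : ℝ × ℝ) (hn : ¬ ∃ v, p - v ∈ K ∧ q - v ∈ K ∧ r - v ∈ K) :
    ∃ a b c : ℝ × ℝ, a + b + c = 0 ∧
      hs K a + hs K b + hs K c < pr a p + pr b q + pr c r := by
  let E := (ℝ × ℝ) × (ℝ × ℝ)
  let T : ((ℝ × ℝ) × (ℝ × ℝ) × (ℝ × ℝ)) →ₗ[ℝ] E :=
    { toFun := fun m => (m.2.1 - m.1, m.2.2 - m.1)
      map_add' := by
        rintro ⟨x, y, z⟩ ⟨x', y', z'⟩
        exact Prod.ext (show y + y' - (x + x') = (y - x) + (y' - x') by abel)
          (show z + z' - (x + x') = (z - x) + (z' - x') by abel)
      map_smul' := by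
        rintro s ⟨x, y, z⟩
        exact Prod.ext (show s • y - s • x = s • (y - x) by rw [smul_sub])
          (show s • z - s • x = s • (z - x) by rw [smul_sub]) }
  have hT : Continuous T := by
    change Continuous (fun m : (ℝ × ℝ) × (ℝ × ℝ) × (ℝ × ℝ) => ((m.2.1 - m.1, m.2.2 - m.1) : E))
    fun_prop
  set M : Set E := T '' (K ×ˢ K ×ˢ K) with hM
  have hMc : IsCompact M := (hK.prod (hK.prod hK)).image hT
  have hMx : Convex ℝ M := (hc.prod (hc.prod hc)).linear_image T
  have hnot : ((q - p, r - p) : E) ∉ M := by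
    rintro ⟨⟨x, y, z⟩, ⟨hx, hy, hz⟩, h⟩
    have h1 : y - x = q - p := congrArg Prod.fst h
    have h2 : z - x = r - p := congrArg Prod.snd h
    apply hn
    refine ⟨p - x, ?_, ?_, ?_⟩
    · rw [sub_sub_cancel]; exact hx
    · have : q - (p - x) = y := by
        have : q = y - x + p := by rw [h1]; abel
        rw [this]; abel
      rw [this]; exact hy
    · have : r - (p - x) = z := by
        have : r = z - x + p := by rw [h2]; abel
        rw [this]; abel
      rw [this]; exact hz
  obtain ⟨f, u, hf1, hf2⟩ := geometric_hahn_banach_closed_point hMx hMc.isClosed hnot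
  set b : ℝ × ℝ := (f (((1, 0), 0) : E), f (((0, 1), 0) : E)) with hb
  set c : ℝ × ℝ := (f ((0, (1, 0)) : E), f ((0, (0, 1)) : E)) with hcdef
  have hfe : ∀ m1 m2 : ℝ × ℝ, f ((m1, m2) : E) = pr b m1 + pr c m2 := by
    rintro ⟨x1, y1⟩ ⟨x2, y2⟩
    have e : (((x1, y1), (x2, y2)) : E) = x1 • (((1, 0), 0) : E) + y1 • (((0, 1), 0) : E) +
        x2 • ((0, (1, 0)) : E) + y2 • ((0, (0, 1)) : E) := by
      simp [Prod.smul_mk]
    rw [e, map_add, map_add, map_add, map_smul, map_smul, map_smul, map_smul]
    simp only [hb, hcdef, pr, smul_eq_mul]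
    ring
  refine ⟨-b - c, b, c, by abel, ?_⟩
  obtain ⟨x, hx, ex⟩ := M6.hs_max K hne hK (-b - c)
  obtain ⟨y, hy, ey⟩ := M6.hs_max K hne hK b
  obtain ⟨z, hz, ez⟩ := M6.hs_max K hne hK c
  rw [ex, ey, ez]
  have h1 := hf1 _ ⟨(x, y, z), ⟨hx, hy, hz⟩, rfl⟩
  have h2 : f (T (x, y, z)) = pr b (y - x) + pr c (z - x) := hfe _ _
  rw [h2] at h1
  rw [hfe] at hf2
  simp only [pr, Prod.fst_sub, Prod.snd_sub, Prod.fst_neg, Prod.snd_neg] at h1 hf2 ⊢
  linarith

/-- M6: Helly and separation. -/
theorem not_cov (K : Set (ℝ × ℝ)) (hne : K.Nonempty) (hK : IsCompact K) (hc : Convex ℝ K)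
    (P : Set (ℝ × ℝ)) (hP : P.Finite) (hn : ¬ Cov K P) :
    ∃ a b c : ℝ × ℝ, a + b + c = 0 ∧ ∃ p ∈ P, ∃ q ∈ P, ∃ r ∈ P,
      hs K a + hs K b + hs K c < pr a p + pr b q + pr c r := by
  classical
  by_cases hall : ∀ p ∈ P, ∀ q ∈ P, ∀ r ∈ P, ∃ v, p - v ∈ K ∧ q - v ∈ K ∧ r - v ∈ K
  · exfalso
    apply hn
    have hconv : ∀ p ∈ hP.toFinset, Convex ℝ {v : ℝ × ℝ | p - v ∈ K} := by
      intro p _ x hx y hy s t hs ht hst
      have h1 := hc hx hy hs ht hst
      have h2 : s • (p - x) + t • (p - y) = p - (s • x + t • y) := by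
        have : p = (s + t) • p := by rw [hst, one_smul]
        conv_rhs => rw [this]
        module
      change p - (s • x + t • y) ∈ K
      rw [← h2]
      exact h1
    have h := Convex.helly_theorem' (𝕜 := ℝ) (F := fun p : ℝ × ℝ => {v : ℝ × ℝ | p - v ∈ K})
      (s := hP.toFinset) hconv (by
        intro I hI hcard
        have hfr : Module.finrank ℝ (ℝ × ℝ) = 2 := by simp
        rw [hfr] at hcard
        have hIP : ∀ x ∈ I, x ∈ P := fun x hx => hP.mem_toFinset.1 (hI hx)
        -- three points containing `I`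
        have h3 : I = ∅ ∨ ∃ p ∈ I, ∃ q ∈ I, ∃ r ∈ I, I ⊆ {p, q, r} := by
          rcases I.eq_empty_or_nonempty with h | h
          · exact Or.inl h
          · right
            obtain ⟨p, hp⟩ := h
            have c1 : (I.erase p).card ≤ 2 := by
              rw [Finset.card_erase_of_mem hp]; omega
            rcases (I.erase p).eq_empty_or_nonempty with h' | ⟨q, hq⟩
            · refine ⟨p, hp, p, hp, p, hp, ?_⟩
              intro x hx
              by_cases hxp : x = p
              · simp [hxp]
              · have : x ∈ I.erase p := Finset.mem_erase.2 ⟨hxp, hx⟩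
                rw [h'] at this
                exact absurd this (Finset.notMem_empty _)
            · have hqI := Finset.mem_of_mem_erase hq
              have c2 : ((I.erase p).erase q).card ≤ 1 := by
                rw [Finset.card_erase_of_mem hq]; omega
              rcases ((I.erase p).erase q).eq_empty_or_nonempty with h'' | ⟨r, hr⟩
              · refine ⟨p, hp, q, hqI, q, hqI, ?_⟩
                intro x hx
                by_cases hxp : x = p
                · simp [hxp]
                by_cases hxq : x = q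
                · simp [hxq]
                have : x ∈ (I.erase p).erase q :=
                  Finset.mem_erase.2 ⟨hxq, Finset.mem_erase.2 ⟨hxp, hx⟩⟩
                rw [h''] at this
                exact absurd this (Finset.notMem_empty _)
              · have hrI := Finset.mem_of_mem_erase (Finset.mem_of_mem_erase hr)
                refine ⟨p, hp, q, hqI, r, hrI, ?_⟩
                intro x hx
                by_cases hxp : x = p
                · simp [hxp]
                by_cases hxq : x = q
                · simp [hxq]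
                have hx2 : x ∈ (I.erase p).erase q :=
                  Finset.mem_erase.2 ⟨hxq, Finset.mem_erase.2 ⟨hxp, hx⟩⟩
                have := Finset.card_le_one.1 c2 x hx2 r hr
                simp [this]
        rcases h3 with h | ⟨p, hp, q, hq, r, hr, hsub⟩
        · subst h
          simp
        · obtain ⟨v, hv1, hv2, hv3⟩ := hall p (hIP p hp) q (hIP q hq) r (hIP r hr)
          refine ⟨v, ?_⟩
          simp only [mem_iInter]
          intro x hx
          have := hsub hx
          simp only [Finset.mem_insert, Finset.mem_singleton] at this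
          rcases this with rfl | rfl | rfl
          · exact hv1
          · exact hv2
          · exact hv3)
    obtain ⟨v, hv⟩ := h
    refine ⟨v, fun p hp => ?_⟩
    have := mem_iInter₂.1 hv p (hP.mem_toFinset.2 hp)
    exact this
  · push Not at hall
    obtain ⟨p, hp, q, hq, r, hr, h⟩ := hall
    obtain ⟨a, b, c, h1, h2⟩ := M6.three K hne hK hc p q r (by
      rintro ⟨v, hv1, hv2, hv3⟩
      exact h v hv1 hv2 hv3)
    exact ⟨a, b, c, h1, p, hp, q, hq, r, hr, h2⟩

end H40Dol
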