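import Pool.Agent.H40.Dol.M7a

/-!
Module M7b: the levels and the (M) lemma.
-/

namespace H40Dol

open Pointwise Set

/-- the functionals of the cone `E_i` -/
def Config.ef {K : Set (ℝ × ℝ)} (C : Config K) (i : Fin 3) (l m : ℝ) : ℝ × ℝ :=
  -(l • C.φ (i + 2)) + m • C.φ (i + 1)

theorem Config.ef_smul {K : Set (ℝ × ℝ)} (C : Config K) (i : Fin 3) (r l m : ℝ) :
    C.ef i (r * l) (r * m) = r • C.ef i l m := by
  simp only [Config.ef]; module

theorem Config.pr_phi2_u {K : Set (ℝ × ℝ)} (C : Config K) (i : Fin 3) :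
    0 < pr (C.φ (i + 2)) (C.u i) := by
  have h := C.ocomb' i
  have h1 := C.phi_one (i + 2)
  rw [fin3_c, fin3_d] at h1
  have h2 := C.phi_neg (i + 2) (i + 1) (fin3_ne6 i)
  rw [fin3_a, fin3_b] at h2
  have e : pr (C.φ (i + 2)) (C.o i • C.u i + C.o (i + 1) • C.u (i + 1) + C.o (i + 2) • C.u (i + 2))
      = 0 := by rw [h, pr_zero_right]
  rw [pr_add_right, pr_add_right, pr_smul_right, pr_smul_right, pr_smul_right] at e
  rw [pr_sub_right] at h1 h2
  have ho := C.opos i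
  have ho1 := C.opos (i + 1)
  have ho2 := C.opos (i + 2)
  nlinarith [mul_pos ho2 (neg_pos.2 h2)]

theorem Config.pr_phi1_u {K : Set (ℝ × ℝ)} (C : Config K) (i : Fin 3) :
    pr (C.φ (i + 1)) (C.u i) < 0 := by
  have h := C.ocomb' i
  have h1 := C.phi_one (i + 1)
  rw [fin3_a, fin3_b] at h1
  have h2 := C.phi_neg (i + 1) (i + 2) (fin3_ne3 i)
  rw [fin3_c, fin3_d] at h2
  have e : pr (C.φ (i + 1)) (C.o i • C.u i + C.o (i + 1) • C.u (i + 1) + C.o (i + 2) • C.u (i + 2))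
      = 0 := by rw [h, pr_zero_right]
  rw [pr_add_right, pr_add_right, pr_smul_right, pr_smul_right, pr_smul_right] at e
  rw [pr_sub_right] at h1 h2
  have ho := C.opos i
  have ho1 := C.opos (i + 1)
  have ho2 := C.opos (i + 2)
  nlinarith [mul_pos ho1 (neg_pos.2 h2)]

theorem Config.ef_neg {K : Set (ℝ × ℝ)} (C : Config K) (i : Fin 3) (l m : ℝ) (hl : 0 ≤ l)
    (hm : 0 ≤ m) (h : 0 < l + m) : pr (C.ef i l m) (C.u i) < 0 := by
  have h1 := C.pr_phi2_u i
  have h2 := C.pr_phi1_u i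
  simp only [Config.ef, pr_add_left, pr_neg_left, pr_smul_left]
  rcases hl.eq_or_lt with rfl | hl
  · have : 0 < m := by linarith
    nlinarith
  · nlinarith [mul_pos hl h1, mul_nonneg hm (neg_nonneg.2 h2.le)]

/-- The level of a finite set. -/
theorem Config.level {K : Set (ℝ × ℝ)} (hne : K.Nonempty) (hK : IsCompact K) (C : Config K)
    (i : Fin 3) (P : Set (ℝ × ℝ)) (hPf : P.Finite) (hP : P.Nonempty) :
    ∃ y : ℝ, (∀ p ∈ P, ∀ l m : ℝ, 0 ≤ l → 0 ≤ m →
      pr (C.ef i l m) p ≤ hs K (C.ef i l m) + hs K (-(C.ef i l m)) + y * pr (C.ef i l m) (C.u i)) ∧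
      ∃ q ∈ P, ∃ l m : ℝ, 0 ≤ l ∧ 0 ≤ m ∧ pr (C.ef i l m) (C.u i) < 0 ∧
        pr (C.ef i l m) q = hs K (C.ef i l m) + hs K (-(C.ef i l m))
          + y * pr (C.ef i l m) (C.u i) := by
  obtain ⟨hs1, hs2, hs3, hs4, hs5⟩ := hs_facts K hne hK
  set F : ℝ → ℝ × ℝ := fun τ => C.ef i τ (1 - τ) with hF
  have hFc : Continuous F := by
    simp only [hF, Config.ef]; fun_prop
  have hFn : ∀ τ ∈ Icc (0 : ℝ) 1, pr (F τ) (C.u i) < 0 := by
    intro τ hτ
    exact C.ef_neg i τ (1 - τ) hτ.1 (by linarith [hτ.2]) (by linarith)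
  set g : ℝ × (ℝ × ℝ) → ℝ := fun x =>
    (hs K (F x.1) + hs K (-(F x.1)) - pr (F x.1) x.2) / (-pr (F x.1) (C.u i)) with hg
  have hcu : Continuous (fun x : ℝ × (ℝ × ℝ) => pr (F x.1) (C.u i)) :=
    continuous_pr.comp (by fun_prop : Continuous fun x : ℝ × (ℝ × ℝ) => (F x.1, C.u i))
  have hcp : Continuous (fun x : ℝ × (ℝ × ℝ) => pr (F x.1) x.2) :=
    continuous_pr.comp (by fun_prop : Continuous fun x : ℝ × (ℝ × ℝ) => (F x.1, x.2))
  have hch : Continuous (fun x : ℝ × (ℝ × ℝ) => hs K (F x.1)) := hs5.comp (by fun_prop)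
  have hch' : Continuous (fun x : ℝ × (ℝ × ℝ) => hs K (-(F x.1))) := hs5.comp (by fun_prop)
  have hgc : ContinuousOn g (Icc (0 : ℝ) 1 ×ˢ P) := by
    refine ((hch.add hch').sub hcp).continuousOn.div hcu.neg.continuousOn ?_
    intro x hx
    have := hFn x.1 hx.1
    linarith
  obtain ⟨⟨τ, q⟩, ⟨hτ, hq⟩, hmin⟩ := (isCompact_Icc.prod hPf.isCompact).exists_isMinOn
    ((nonempty_Icc.2 zero_le_one).prod hP) hgc
  refine ⟨g (τ, q), ?_, q, hq, τ, 1 - τ, hτ.1, by linarith [hτ.2], hFn τ hτ, ?_⟩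
  · intro p hp l m hl hm
    rcases (add_nonneg hl hm).eq_or_lt with h0 | h0
    · have hl0 : l = 0 := by linarith
      have hm0 : m = 0 := by linarith
      have e : C.ef i l m = 0 := by rw [hl0, hm0]; simp [Config.ef]
      have e0 : hs K 0 = 0 := by
        have := hs4 0 le_rfl 0
        simpa using this
      rw [e, neg_zero, e0, pr_zero_left, pr_zero_left]
      simp
    · have hr : l / (l + m) ∈ Icc (0 : ℝ) 1 :=
        ⟨div_nonneg hl h0.le, by rw [div_le_one h0]; linarith⟩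
      have e : C.ef i l m = (l + m) • F (l / (l + m)) := by
        rw [hF, ← C.ef_smul i]
        congr 1
        · field_simp
        · field_simp; ring
      have h1 : g (τ, q) ≤ g (l / (l + m), p) := hmin (mk_mem_prod hr hp)
      have h2 := hFn _ hr
      have h3 : g (τ, q) * (-pr (F (l / (l + m))) (C.u i)) ≤
          hs K (F (l / (l + m))) + hs K (-(F (l / (l + m)))) - pr (F (l / (l + m))) p := by
        rw [← le_div_iff₀ (by linarith)]
        exact h1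
      rw [e, ← smul_neg, hs4 _ h0.le, hs4 _ h0.le, pr_smul_left, pr_smul_left]
      nlinarith
  · have h2 := hFn τ hτ
    have h3 : g (τ, q) * (-pr (F τ) (C.u i)) =
        hs K (F τ) + hs K (-(F τ)) - pr (F τ) q := by
      simp only [hg]
      rw [div_mul_cancel₀]
      linarith
    show pr (F τ) q = hs K (F τ) + hs K (-(F τ)) + g (τ, q) * pr (F τ) (C.u i)
    linarith

theorem ne_zero_of_pr {a p : ℝ × ℝ} (h : pr a p < 0) : a ≠ 0 := by
  rintro rfl
  rw [pr_zero_left] at h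
  exact lt_irrefl _ h

/-- M7b: the (M) lemma (from HS and M7a). -/
theorem mlemma (K : Set (ℝ × ℝ)) (hne : K.Nonempty) (hK : IsCompact K) (hc : Convex ℝ K)
    (C : Config K) (P : Fin 3 → Set (ℝ × ℝ)) (hPf : ∀ i, (P i).Finite)
    (hP : ∀ i, P i ⊆ C.S i)
    (hD : ∀ i j, i ≠ j → ∀ p ∈ P i, ∀ q ∈ P j, p - q ∈ K - K) : ∃ i, Cov K (P i) := by
  by_cases hem : ∃ i, P i = ∅
  · obtain ⟨i, hi⟩ := hem
    exact ⟨i, 0, by rw [hi]; intro p hp; exact hp.elim⟩
  · push Not at hem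
    have hPn : ∀ i, (P i).Nonempty := fun i => hem i
    choose Y hY q hq l m hl hm hneg heq using
      fun i => C.level hne hK i (P i) (hPf i) (hPn i)
    obtain ⟨i, hi⟩ := Finite.exists_max Y
    refine ⟨i, ?_⟩
    refine mgen K hne hK hc C i (Y i) (P i) (hPf i) (q (i + 1)) (q (i + 2))
      (C.ef (i + 1) (l (i + 1)) (m (i + 1))) (C.ef (i + 2) (l (i + 2)) (m (i + 2)))
      (hP i) (hP _ (hq _)) (hP _ (hq _)) ?_ (ne_zero_of_pr (hneg _)) (ne_zero_of_pr (hneg _))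
      ⟨l (i + 1), m (i + 1), hl _, hm _, ?_⟩ ⟨l (i + 2), m (i + 2), hl _, hm _, ?_⟩ ?_ ?_
      ?_ ?_ ?_
    · intro p hp l' m' hl' hm'
      exact hY i p hp l' m' hl' hm'
    · rw [Config.ef, fin3_a, fin3_b]
    · rw [Config.ef, fin3_c, fin3_d]
    · rw [heq (i + 1)]
      nlinarith [hneg (i + 1), hi (i + 1)]
    · rw [heq (i + 2)]
      nlinarith [hneg (i + 2), hi (i + 2)]
    · intro p hp
      exact hD i (i + 1) (fin3_ne1 i) p hp _ (hq _)
    · intro p hp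
      exact hD i (i + 2) (fin3_ne2 i) p hp _ (hq _)
    · exact hD (i + 1) (i + 2) (fin3_ne3 i) _ (hq _) _ (hq _)

end H40Dol
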