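import Pool.Agent.H40.Dol.M1
import Pool.Agent.H40.Dol.M6
import Pool.Agent.H40.Dol.M7b
import Pool.Agent.H4.Dol.M2b
import Pool.Agent.H78.Dol.M4
import Pool.Agent.H78.Dol.T
import Pool.Agent.H73.DolM.M8
import Pool.Agent.H73.DolM.M9
import Pool.Agent.H57.Dol.Defs

/-!
Assembly: the theorem in the Euclidean plane.
-/

namespace H40Dol

open Set
open scoped Pointwise ENNReal NNReal
open Pool.Agent.H57.Dol (Plane diffBody mem_diffBody mem_of_rho_le)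

theorem general (K : Set (ℝ × ℝ)) (hne : K.Nonempty) (hK : IsCompact K)
    (hc : Convex ℝ K) (X : Fin 3 → Set (ℝ × ℝ)) (hX : ∀ i, (X i).Finite)
    (hD : ∀ i j, i ≠ j → ∀ p ∈ X i, ∀ q ∈ X j, p - q ∈ K - K) :
    ∃ m, ∃ v : Fin 3 → ℝ × ℝ, ∀ x ∈ X m, ∃ i, x - v i ∈ K := by
  have h4 : Pool.Agent.H73.DolM.HM4 := fun K hK hs hi =>
    H78Dol.exists_config (fun α β a b h1 h2 h3 h4 h5 h6 =>
      Pool.Agent.H4.Dol.lemmaO α β a b h1 h2 h3 h4 h5 h6) H78Dol.tshape K hK hs hi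
  have h7 : Pool.Agent.H73.DolM.HM7 := fun K hne hK hc C P h1 h2 h3 =>
    mlemma K hne hK hc C P h1 h2 h3
  have h8 : Pool.Agent.H73.DolM.HM8 := fun K hK hs hi X hX hD =>
    Pool.Agent.H73.DolM.strict_case_of h4 h7 K hK hs hi X hX hD
  exact Pool.Agent.H73.DolM.general_case_of h8 K hne hK hc X hX hD

/-- The identification of the Euclidean plane with `ℝ × ℝ`. -/
noncomputable def LP : Plane ≃L[ℝ] (ℝ × ℝ) :=
  ((WithLp.linearEquiv 2 ℝ (Fin 2 → ℝ)) ≪≫ₗ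
    (LinearEquiv.finTwoArrow ℝ ℝ)).toContinuousLinearEquiv

theorem plane_case (K : Set Plane) (hne : K.Nonempty) (hK : IsCompact K)
    (hc : Convex ℝ K) (X : Fin 3 → Set Plane) (hX : ∀ i, (X i).Finite)
    (hD : ∀ i j, i ≠ j → ∀ p ∈ X i, ∀ q ∈ X j, p - q ∈ diffBody K) :
    ∃ m, ∃ v : Fin 3 → Plane, X m ⊆ ⋃ k, (v k +ᵥ K) := by
  obtain ⟨m, v, hv⟩ := general (LP '' K) (hne.image _) (hK.image LP.continuous)
    (hc.linear_image (LP : Plane →ₗ[ℝ] (ℝ × ℝ))) (fun i => LP '' (X i)) (fun i => (hX i).image _)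
    (by
      rintro i j hij _ ⟨p, hp, rfl⟩ _ ⟨q, hq, rfl⟩
      obtain ⟨a, ha, b, hb, hab⟩ := mem_diffBody.1 (hD i j hij p hp q hq)
      rw [Set.mem_sub]
      refine ⟨LP a, ⟨a, ha, rfl⟩, LP b, ⟨b, hb, rfl⟩, ?_⟩
      rw [← map_sub, ← map_sub, hab])
  refine ⟨m, fun k => LP.symm (v k), ?_⟩
  intro x hx
  obtain ⟨i, y, hy, hyx⟩ := hv (LP x) ⟨x, hx, rfl⟩
  rw [Set.mem_iUnion]
  refine ⟨i, y, hy, ?_⟩
  change LP.symm (v i) + y = x
  apply LP.injective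
  rw [map_add, LP.apply_symm_apply, hyx]
  abel

end H40Dol
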