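import Pool.Agent.H40.Dol.Defs

/-!
Module HS: basic facts on the support function.
-/

namespace H40Dol

theorem continuous_pr : Continuous (fun x : (ℝ × ℝ) × (ℝ × ℝ) => pr x.1 x.2) := by
  unfold pr; fun_prop

theorem pr_add_left (a b p : ℝ × ℝ) : pr (a + b) p = pr a p + pr b p := by
  simp only [pr, Prod.fst_add, Prod.snd_add]; ring

theorem pr_add_right (a p q : ℝ × ℝ) : pr a (p + q) = pr a p + pr a q := by
  simp only [pr, Prod.fst_add, Prod.snd_add]; ring

theorem pr_sub_right (a p q : ℝ × ℝ) : pr a (p - q) = pr a p - pr a q := by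
  simp only [pr, Prod.fst_sub, Prod.snd_sub]; ring

theorem pr_neg_left (a p : ℝ × ℝ) : pr (-a) p = -pr a p := by
  simp only [pr, Prod.fst_neg, Prod.snd_neg]; ring

theorem pr_neg_right (a p : ℝ × ℝ) : pr a (-p) = -pr a p := by
  simp only [pr, Prod.fst_neg, Prod.snd_neg]; ring

theorem pr_smul_left (t : ℝ) (a p : ℝ × ℝ) : pr (t • a) p = t * pr a p := by
  simp only [pr, Prod.smul_fst, Prod.smul_snd, smul_eq_mul]; ring

theorem pr_smul_right (t : ℝ) (a p : ℝ × ℝ) : pr a (t • p) = t * pr a p := by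
  simp only [pr, Prod.smul_fst, Prod.smul_snd, smul_eq_mul]; ring

theorem pr_zero_left (p : ℝ × ℝ) : pr 0 p = 0 := by simp [pr]

theorem pr_zero_right (a : ℝ × ℝ) : pr a 0 = 0 := by simp [pr]

/-- HS: basic facts on the support function. -/
theorem hs_facts (K : Set (ℝ × ℝ)) (hne : K.Nonempty) (hK : IsCompact K) :
    (∀ a, ∀ p ∈ K, pr a p ≤ hs K a) ∧ (∀ a, ∃ p ∈ K, hs K a = pr a p) ∧
    (∀ a b, hs K (a + b) ≤ hs K a + hs K b) ∧
    (∀ t : ℝ, 0 ≤ t → ∀ a, hs K (t • a) = t * hs K a) ∧ Continuous (hs K) := by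
  have hcp : ∀ a, Continuous (fun p => pr a p) := by
    intro a; unfold pr; fun_prop
  have him : ∀ a, IsCompact ((fun p => pr a p) '' K) := fun a => hK.image (hcp a)
  have h1 : ∀ a, ∀ p ∈ K, pr a p ≤ hs K a := fun a p hp =>
    le_csSup (him a).bddAbove ⟨p, hp, rfl⟩
  have h2 : ∀ a, ∃ p ∈ K, hs K a = pr a p := by
    intro a
    obtain ⟨p, hp, h⟩ := (him a).sSup_mem (hne.image _)
    exact ⟨p, hp, h.symm⟩
  refine ⟨h1, h2, ?_, ?_, ?_⟩
  · intro a b
    obtain ⟨p, hp, h⟩ := h2 (a + b)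
    rw [h, pr_add_left]
    exact add_le_add (h1 a p hp) (h1 b p hp)
  · intro t ht a
    apply le_antisymm
    · obtain ⟨p, hp, h⟩ := h2 (t • a)
      rw [h, pr_smul_left]
      exact mul_le_mul_of_nonneg_left (h1 a p hp) ht
    · obtain ⟨p, hp, h⟩ := h2 a
      rw [h, ← pr_smul_left]
      exact h1 _ p hp
  · exact hK.continuous_sSup (f := fun a p => pr a p) continuous_pr

end H40Dol
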