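import Pool.Agent.H40.Dol.Defs

/-!
Module M1: the core lemma for MP_70580c_co, in the coordinates
`u_2 = (1,0)`, `u_3 = (0,1)`, `u_1 = (-A,-B)`.
-/

namespace H40Dol

namespace M1

lemma pr_add_left (a b p : ℝ × ℝ) : pr (a + b) p = pr a p + pr b p := by
  simp only [pr, Prod.fst_add, Prod.snd_add]; ring

lemma pr_neg_left (a p : ℝ × ℝ) : pr (-a) p = - pr a p := by
  simp only [pr, Prod.fst_neg, Prod.snd_neg]; ring

lemma pr_smul_left (t : ℝ) (a p : ℝ × ℝ) : pr (t • a) p = t * pr a p := by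
  simp only [pr, Prod.smul_fst, Prod.smul_snd, smul_eq_mul]; ring

lemma pr_add_right (a p q : ℝ × ℝ) : pr a (p + q) = pr a p + pr a q := by
  simp only [pr, Prod.fst_add, Prod.snd_add]; ring

lemma pr_sub_right (a p q : ℝ × ℝ) : pr a (p - q) = pr a p - pr a q := by
  simp only [pr, Prod.fst_sub, Prod.snd_sub]; ring

lemma pr_smul_right (t : ℝ) (a p : ℝ × ℝ) : pr a (t • p) = t * pr a p := by
  simp only [pr, Prod.smul_fst, Prod.smul_snd, smul_eq_mul]; ring

/-- decomposition of `c` in the basis `x, y` -/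
lemma decomp (x y c : ℝ × ℝ) (h : dt x y ≠ 0) :
    c = (dt c y / dt x y) • x + (dt x c / dt x y) • y := by
  have h' : x.1 * y.2 - x.2 * y.1 ≠ 0 := h
  ext
  · simp only [dt, Prod.fst_add, Prod.smul_fst, smul_eq_mul]
    rw [div_mul_eq_mul_div, div_mul_eq_mul_div, ← add_div, eq_div_iff h']
    ring
  · simp only [dt, Prod.snd_add, Prod.smul_snd, smul_eq_mul]
    rw [div_mul_eq_mul_div, div_mul_eq_mul_div, ← add_div, eq_div_iff h']
    ring

/-- Claim L1. -/
lemma low1 (s : ℝ) (g c p : ℝ × ℝ) (hg : 0 < g.1) (hp : 0 ≤ p.2)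
    (hw : pr g p ≤ s * g.1) (hd : dt g c ≤ 0) (hc : 0 ≤ c.1) : pr c p ≤ s * c.1 := by
  simp only [pr, dt] at *
  have h1 : p.2 * (g.1 * c.2) ≤ p.2 * (g.2 * c.1) := by
    apply mul_le_mul_of_nonneg_left _ hp
    linarith
  have h2 : (g.2 * p.2) * c.1 ≤ (s * g.1 - g.1 * p.1) * c.1 := by
    apply mul_le_mul_of_nonneg_right _ hc
    linarith
  have h3 : g.1 * (c.1 * p.1 + c.2 * p.2) ≤ g.1 * (s * c.1) := by nlinarith
  exact le_of_mul_le_mul_left h3 hg

/-- Claim L2. -/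
lemma low2 (s : ℝ) (g c p : ℝ × ℝ) (hg : 0 < g.2) (hp : 0 ≤ p.1)
    (hw : pr g p ≤ s * g.2) (hd : dt c g ≤ 0) (hc : 0 ≤ c.2) : pr c p ≤ s * c.2 := by
  have := low1 s (g.2, g.1) (c.2, c.1) (p.2, p.1) hg hp
    (by simp only [pr] at *; linarith) (by simp only [dt] at *; linarith) hc
  simp only [pr] at *
  linarith

lemma low3 (g2 g3 c : ℝ × ℝ) (hg2 : 0 < g2.1) (hg3 : 0 < g3.2) (hgg : 0 ≤ dt g2 g3)
    (hd : dt g2 c ≤ 0) (hc1 : c.1 < 0) (hc2 : 0 < c.2) : dt c g3 ≤ 0 := by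
  simp only [dt] at *
  by_contra hcon
  push Not at hcon
  have k1 : g2.2 < 0 := by
    by_contra h
    push Not at h
    nlinarith [mul_pos hg2 hc2, mul_nonneg h (neg_nonneg.2 hc1.le)]
  have k2 : g3.1 < 0 := by
    by_contra h
    push Not at h
    nlinarith [mul_pos hg3 (neg_pos.2 hc1), mul_nonneg h hc2.le]
  -- g2.1 * g3.2 ≥ g2.2 * g3.1 ; g2.1 * c.2 ≤ g2.2 * c.1 ; c.1 * g3.2 > c.2 * g3.1
  have e1 : g2.1 * g3.2 ≥ g2.2 * g3.1 := by linarith
  have e2 : g2.1 * c.2 ≤ g2.2 * c.1 := by linarith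
  have e3 : c.1 * g3.2 > c.2 * g3.1 := by linarith
  -- multiply e1 by (-c.1) >0 : g2.1*g3.2*(-c.1) ≥ g2.2*g3.1*(-c.1)
  have e4 : g2.1 * g3.2 * (-c.1) ≥ g2.2 * g3.1 * (-c.1) :=
    mul_le_mul_of_nonneg_right e1 (by linarith)
  -- multiply e2 by (-g3.1) >0
  have e5 : g2.1 * c.2 * (-g3.1) ≤ g2.2 * c.1 * (-g3.1) :=
    mul_le_mul_of_nonneg_right e2 (by linarith)
  -- multiply e3 by g2.1
  have e6 : g2.1 * (c.1 * g3.2) > g2.1 * (c.2 * g3.1) := mul_lt_mul_of_pos_left e3 hg2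
  nlinarith

lemma low3' (g2 g3 c : ℝ × ℝ) (hg2 : 0 < g2.1) (hg3 : 0 < g3.2) (hgg : 0 ≤ dt g2 g3)
    (hd : dt c g3 ≤ 0) (hc1 : 0 < c.1) (hc2 : c.2 < 0) : dt g2 c ≤ 0 := by
  have := low3 (g3.2, g3.1) (g2.2, g2.1) (c.2, c.1) hg3 hg2
    (by simp only [dt] at *; linarith) (by simp only [dt] at *; linarith) hc2 hc1
  simp only [dt] at *
  linarith

/-- the lower bound lemma -/
lemma lower (s : ℝ) (g2 g3 c p : ℝ × ℝ) (hg2 : 0 < g2.1) (hg3 : 0 < g3.2)
    (hgg : 0 ≤ dt g2 g3) (hp1 : 0 ≤ p.1) (hp2 : 0 ≤ p.2)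
    (hw2 : pr g2 p ≤ s * g2.1) (hw3 : pr g3 p ≤ s * g3.2)
    (hd : dt g2 c ≤ 0 ∨ dt c g3 ≤ 0) :
    pr c p ≤ 0 ∧ c.1 < 0 ∧ c.2 < 0 ∨ pr c p ≤ s * c.1 ∨ pr c p ≤ s * c.2 := by
  rcases lt_or_ge c.1 0 with h1 | h1 <;> rcases lt_or_ge c.2 0 with h2 | h2
  · left
    refine ⟨?_, h1, h2⟩
    simp only [pr]
    nlinarith
  · right; right
    rcases hd with hd | hd
    · rcases h2.lt_or_eq with h2' | h2'
      · exact low2 s g3 c p hg3 hp1 hw3 (low3 g2 g3 c hg2 hg3 hgg hd h1 h2') h2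
      · simp only [pr]
        rw [← h2']
        nlinarith
    · exact low2 s g3 c p hg3 hp1 hw3 hd h2
  · right; left
    rcases hd with hd | hd
    · exact low1 s g2 c p hg2 hp2 hw2 hd h1
    · rcases h1.lt_or_eq with h1' | h1'
      · exact low1 s g2 c p hg2 hp2 hw2 (low3' g2 g3 c hg2 hg3 hgg hd h1' h2) h1
      · simp only [pr]
        rw [← h1']
        nlinarith
  · right
    rcases hd with hd | hd
    · left; exact low1 s g2 c p hg2 hp2 hw2 hd h1
    · right; exact low2 s g3 c p hg3 hp1 hw3 hd h2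

/-- I2: the crossing-point estimate. `q3 = g u1 + d u2`, `q2 = g' u3 + d' u1`. -/
lemma I2 (A B s : ℝ) (hA : 0 < A) (hB : 0 < B) (hs0 : 0 < s) (hs1 : s < 1)
    (c2 c3 : ℝ) (hc2 : c2 < 0) (hc3 : c3 < 0)
    (g d g' d' : ℝ) (hg : 0 ≤ g) (hd : 0 ≤ d) (hg' : 0 ≤ g') (hd' : 0 ≤ d')
    (hcq2 : g' * c3 + d' * (-A * c2 - B * c3) < 0) (hcq3 : g * (-A * c2 - B * c3) + d * c2 < 0)
    (F2 F3 D2 : ℝ) (hD2 : 0 < D2) (hF : (-A * F2 - B * F3) - F2 ≤ D2)
    (hF' : 0 < (-A * F2 - B * F3) - F2)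
    (hf2q2 : D2 + s * F2 ≤ g' * F3 + d' * (-A * F2 - B * F3))
    (hf2q3 : s * F2 ≤ g * (-A * F2 - B * F3) + d * F2)
    (G2 G3 D3 : ℝ) (hD3 : 0 < D3) (hG1 : (-A * G2 - B * G3) - G3 ≤ D3) (hG2 : G2 - G3 ≤ D3)
    (hf3q2 : s * G3 ≤ g' * G3 + d' * (-A * G2 - B * G3))
    (hf3q3 : D3 + s * G3 ≤ g * (-A * G2 - B * G3) + d * G2) :
    (1 - s) * (-A * c2 - B * c3) < (2 * s - 1) * (-c2) := by
  -- values at u1
  set F1 := -A * F2 - B * F3 with hF1
  set G1 := -A * G2 - B * G3 with hG1d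
  set c1 := -A * c2 - B * c3 with hc1d
  have hc1 : 0 < c1 := by
    have t1 := mul_pos hA (neg_pos.2 hc2)
    have t2 := mul_pos hB (neg_pos.2 hc3)
    rw [hc1d]; linarith
  -- g + d > s
  have hmax : 0 ≤ D3 + G3 := by
    by_contra hcon
    push Not at hcon
    have h3 : G3 < 0 := by linarith
    have h2 : G2 < 0 := by linarith
    have h1 : 0 < G1 := by
      have t1 := mul_pos hA (neg_pos.2 h2)
      have t2 := mul_pos hB (neg_pos.2 h3)
      rw [hG1d]; linarith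
    linarith
  have hgd : s < g + d := by
    by_contra hcon
    push Not at hcon
    have e1 : g * G1 ≤ g * (D3 + G3) := mul_le_mul_of_nonneg_left (by linarith) hg
    have e2 : d * G2 ≤ d * (D3 + G3) := mul_le_mul_of_nonneg_left (by linarith) hd
    have e3 : (g + d) * (D3 + G3) ≤ s * (D3 + G3) := mul_le_mul_of_nonneg_right hcon hmax
    have e4 : s * D3 < 1 * D3 := mul_lt_mul_of_pos_right hs1 hD3
    linarith
  -- tau values
  have hB' : 0 < B⁻¹ := inv_pos.2 hB
  -- d' * B < g'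
  have hdg : d' * B ≤ g' := by
    have h1 : d' * (A * (-c2)) ≥ 0 := mul_nonneg hd' (mul_nonneg hA.le (by linarith))
    have h2 : d' * B * (-c3) < g' * (-c3) := by
      rw [hc1d] at hcq2
      linarith
    exact (lt_of_mul_lt_mul_right h2 (by linarith)).le
  -- coordinates in basis (u1,u2)
  -- q2 = a2 u1 + b2 u2, a2 = d' - g'/B, b2 = -(g' A / B)
  obtain ⟨a2, ha2⟩ : ∃ a2, a2 = d' - g' / B := ⟨_, rfl⟩
  obtain ⟨b2, hb2⟩ : ∃ b2, b2 = -(g' * A / B) := ⟨_, rfl⟩
  have ha2B : a2 * B = d' * B - g' := by rw [ha2]; field_simp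
  have hb2B : b2 * B = -(g' * A) := by rw [hb2]; field_simp
  have ha2n : a2 ≤ 0 := by
    by_contra h
    push Not at h
    have t1 := mul_pos h hB
    linarith
  have hb2n : b2 ≤ 0 := by
    by_contra h
    push Not at h
    have t1 := mul_pos h hB
    have t2 := mul_nonneg hg' hA.le
    linarith
  -- value identities: for a functional with values v2,v3 and v1 = -A v2 - B v3,
  -- g' v3 + d' v1 = a2 v1 + b2 v2
  have key : ∀ v2 v3 : ℝ, g' * v3 + d' * (-A * v2 - B * v3)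
      = a2 * (-A * v2 - B * v3) + b2 * v2 := by
    intro v2 v3
    have hBne : B ≠ 0 := hB.ne'
    apply mul_left_cancel₀ hBne
    have : B * (a2 * (-A * v2 - B * v3) + b2 * v2)
        = (a2 * B) * (-A * v2 - B * v3) + (b2 * B) * v2 := by ring
    rw [this, ha2B, hb2B]
    ring
  have kc := key c2 c3
  have kF := key F2 F3
  have kG := key G2 G3
  rw [← hc1d] at kc
  rw [← hF1] at kF
  rw [← hG1d] at kG
  -- theta
  obtain ⟨θ, hθ⟩ : ∃ θ, θ = (s - (a2 + b2)) / ((g + d) - (a2 + b2)) := ⟨_, rfl⟩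
  have hden : 0 < (g + d) - (a2 + b2) := by linarith
  have hθ0 : 0 ≤ θ := by rw [hθ]; apply div_nonneg <;> linarith
  have hθ1 : θ ≤ 1 := by rw [hθ, div_le_one hden]; linarith
  have hθm : θ * ((g + d) - (a2 + b2)) = s - (a2 + b2) := by
    rw [hθ]; exact div_mul_cancel₀ _ hden.ne'
  obtain ⟨w1, hw1⟩ : ∃ w1, w1 = (1 - θ) * a2 + θ * g := ⟨_, rfl⟩
  obtain ⟨w2, hw2⟩ : ∃ w2, w2 = (1 - θ) * b2 + θ * d := ⟨_, rfl⟩
  have hsum : w1 + w2 = s := by rw [hw1, hw2]; linear_combination hθm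
  -- value at z
  have zF : (1 - θ) * (g' * F3 + d' * F1) + θ * (g * F1 + d * F2) = w1 * F1 + w2 * F2 := by
    rw [kF, hw1, hw2]; ring
  have zG : (1 - θ) * (g' * G3 + d' * G1) + θ * (g * G1 + d * G2) = w1 * G1 + w2 * G2 := by
    rw [kG, hw1, hw2]; ring
  have zc : (1 - θ) * (g' * c3 + d' * c1) + θ * (g * c1 + d * c2) = w1 * c1 + w2 * c2 := by
    rw [kc, hw1, hw2]; ring
  have hzF : (1 - θ) * D2 + s * F2 ≤ w1 * F1 + w2 * F2 := by
    rw [← zF]
    have e1 := mul_le_mul_of_nonneg_left hf2q2 (sub_nonneg.2 hθ1)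
    have e2 := mul_le_mul_of_nonneg_left hf2q3 hθ0
    linarith
  have hzF2 : (1 - θ) * D2 ≤ w1 * (F1 - F2) := by
    have : w2 = s - w1 := by linarith
    rw [this] at hzF
    linarith
  have hw1n : 0 ≤ w1 := by
    by_contra h
    push Not at h
    have t1 := mul_nonneg (sub_nonneg.2 hθ1) hD2.le
    have t2 := mul_pos (neg_pos.2 h) hF'
    linarith
  have hw1θ : 1 - θ ≤ w1 := by
    have h1 : w1 * (F1 - F2) ≤ w1 * D2 := mul_le_mul_of_nonneg_left (by linarith) hw1n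
    have h2 : (1 - θ) * D2 ≤ w1 * D2 := le_trans hzF2 h1
    exact le_of_mul_le_mul_right h2 hD2
  have hzc : w1 * c1 + w2 * c2 < 0 := by
    rw [← zc]
    rcases hθ1.lt_or_eq with h | h
    · have e1 := mul_neg_of_pos_of_neg (sub_pos.2 h) hcq2
      have e2 := mul_nonpos_of_nonneg_of_nonpos hθ0 hcq3.le
      linarith
    · rw [h]; linarith
  have hw2n : 0 ≤ w2 := by
    by_contra h
    push Not at h
    have e1 := mul_nonneg hw1n hc1.le
    have e2 := mul_pos (neg_pos.2 h) (neg_pos.2 hc2)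
    linarith
  have hzG : θ * D3 + s * G3 ≤ w1 * G1 + w2 * G2 := by
    rw [← zG]
    have e1 := mul_le_mul_of_nonneg_left hf3q2 (sub_nonneg.2 hθ1)
    have e2 := mul_le_mul_of_nonneg_left hf3q3 hθ0
    linarith
  have hθs : θ ≤ s := by
    have e1 : w1 * (G1 - G3) ≤ w1 * D3 := mul_le_mul_of_nonneg_left hG1 hw1n
    have e2 : w2 * (G2 - G3) ≤ w2 * D3 := mul_le_mul_of_nonneg_left hG2 hw2n
    have e3 : θ * D3 ≤ s * D3 := by
      have t1 : w2 = s - w1 := by linarith
      rw [t1] at e2 hzG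
      linarith
    exact le_of_mul_le_mul_right e3 hD3
  have hw1s : 1 - s ≤ w1 := by linarith
  have hfin : w1 * c1 < (s - w1) * (-c2) := by
    have : w2 = s - w1 := by linarith
    rw [this] at hzc
    linarith
  have e1 : (1 - s) * c1 ≤ w1 * c1 := mul_le_mul_of_nonneg_right hw1s hc1.le
  have e2 : (s - w1) * (-c2) ≤ (2 * s - 1) * (-c2) :=
    mul_le_mul_of_nonneg_right (by linarith) (by linarith)
  linarith

lemma hD_nonneg (h : ℝ × ℝ → ℝ) (hadd : ∀ a b, h (a + b) ≤ h a + h b)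
    (hsmul : ∀ t : ℝ, 0 ≤ t → ∀ a, h (t • a) = t * h a) (a : ℝ × ℝ) : 0 ≤ h a + h (-a) := by
  have h0 : h 0 = 0 := by
    have := hsmul 0 le_rfl 0
    simpa using this
  have := hadd a (-a)
  rw [add_neg_cancel, h0] at this
  exact this

lemma hD_pos (A B : ℝ) (hA : 0 < A) (hB : 0 < B) (h : ℝ × ℝ → ℝ)
    (h2 : ∀ a : ℝ × ℝ, a.1 ≤ h a) (h3 : ∀ a : ℝ × ℝ, a.2 ≤ h a)
    (hE2 : ∀ a : ℝ × ℝ, A * a.1 + (1 + B) * a.2 ≤ h a + h (-a)) (a : ℝ × ℝ) (ha : a ≠ 0) :
    0 < h a + h (-a) := by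
  by_contra hcon
  push Not at hcon
  have e1 := h2 a
  have e2 := h3 a
  have e1' := h2 (-a)
  have e2' := h3 (-a)
  have e3 := hE2 a
  have e3' := hE2 (-a)
  rw [neg_neg] at e3'
  simp only [Prod.fst_neg, Prod.snd_neg] at e1' e2' e3'
  apply ha
  have k1 : a.1 = a.2 := by linarith
  have k2 : (1 + A + B) * a.1 = 0 := by
    rw [← k1] at e3 e3'
    linarith
  have k3 : a.1 = 0 := by
    rcases mul_eq_zero.1 k2 with k | k
    · linarith
    · exact k
  ext
  · exact k3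
  · rw [← k1]; exact k3

/-- Phase C: `0 ≤ s < 1`. -/
lemma twoCore (A B s : ℝ) (hA : 0 < A) (hB : 0 < B) (hs0 : 0 ≤ s) (hs1 : s < 1)
    (h : ℝ × ℝ → ℝ) (hadd : ∀ a b, h (a + b) ≤ h a + h b)
    (hsmul : ∀ t : ℝ, 0 ≤ t → ∀ a, h (t • a) = t * h a)
    (h2 : ∀ a : ℝ × ℝ, a.1 ≤ h a) (h3 : ∀ a : ℝ × ℝ, a.2 ≤ h a)
    (hE2 : ∀ a : ℝ × ℝ, A * a.1 + (1 + B) * a.2 ≤ h a + h (-a))
    (hE3 : ∀ a : ℝ × ℝ, -(1 + A) * a.1 - B * a.2 ≤ h a + h (-a))
    (ws : ∀ c : ℝ × ℝ, c.1 < 0 → c.2 < 0 → 0 ≤ h c)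
    (hc3 : ∀ c : ℝ × ℝ, c.1 < 0 → c.2 < 0 → ∀ s : ℝ, 0 < s → s < 1 →
      ¬ (h c < (1 - s) * (-A * c.1 - B * c.2) ∧
        (1 - s) * (-A * c.1 - B * c.2) < (2 * s - 1) * (-c.1) ∧
        (1 - s) * (-A * c.1 - B * c.2) < (2 * s - 1) * (-c.2)))
    (g2 g3 : ℝ × ℝ) (hg2 : 0 < g2.1) (hg3 : 0 < g3.2) (hgg : 0 ≤ dt g2 g3)
    (hg2u : 0 < g2.1 - (-A * g2.1 - B * g2.2)) (hg3u : 0 < g3.2 - (-A * g3.1 - B * g3.2))
    (P : Set (ℝ × ℝ)) (hP : ∀ p ∈ P, 0 ≤ p.1 ∧ 0 ≤ p.2)
    (q2 q3 : ℝ × ℝ)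
    (gq dq gq' dq' : ℝ) (hgq : 0 ≤ gq) (hdq : 0 ≤ dq) (hgq' : 0 ≤ gq') (hdq' : 0 ≤ dq')
    (hq3 : ∀ a : ℝ × ℝ, pr a q3 = gq * (-A * a.1 - B * a.2) + dq * a.1)
    (hq2 : ∀ a : ℝ × ℝ, pr a q2 = gq' * a.2 + dq' * (-A * a.1 - B * a.2))
    (wall2 : ∀ p ∈ P, pr g2 p ≤ s * g2.1) (wall3 : ∀ p ∈ P, pr g3 p ≤ s * g3.2)
    (wall2q : pr g2 q3 ≤ s * g2.1) (wall3q : pr g3 q2 ≤ s * g3.2)
    (ht2 : h g2 + h (-g2) + pr g2 q2 ≤ s * g2.1) (ht3 : h g3 + h (-g3) + pr g3 q3 ≤ s * g3.2)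
    (U1 : ∀ a, 0 < dt g2 a → 0 < dt a g3 → ∀ p ∈ P, pr a p ≤ s * h a + (1 - s) * (h a + h (-a)))
    (U2 : ∀ a, 0 < dt g2 a → 0 < dt a g3 → ∀ p ∈ P,
      pr a p ≤ h a - (1 - s) * (-A * a.1 - B * a.2))
    (hD12 : ∀ a, ∀ p ∈ P, pr a p - pr a q2 ≤ h a + h (-a))
    (hD13 : ∀ a, ∀ p ∈ P, pr a p - pr a q3 ≤ h a + h (-a))
    (a b c : ℝ × ℝ) (hc : c = -(a + b)) (ha1 : 0 < dt g2 a) (ha2 : 0 < dt a g3)
    (hb1 : 0 < dt g2 b) (hb2 : 0 < dt b g3) (hab : 0 < dt a b)
    (p : ℝ × ℝ) (hp : p ∈ P) (q : ℝ × ℝ) (hq : q ∈ P) (r : ℝ × ℝ) (hr : r ∈ P) :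
    pr a p + pr b q + pr c r ≤ h a + h b + h c := by
  by_contra hcon
  push Not at hcon
  -- the translate K_t
  obtain ⟨t, hta, htb⟩ : ∃ t : ℝ × ℝ, pr a t = pr a p - h a ∧ pr b t = pr b q - h b := by
    have hne : a.1 * b.2 - a.2 * b.1 ≠ 0 := hab.ne'
    refine ⟨(((pr a p - h a) * b.2 - (pr b q - h b) * a.2) / (a.1 * b.2 - a.2 * b.1),
      ((pr b q - h b) * a.1 - (pr a p - h a) * b.1) / (a.1 * b.2 - a.2 * b.1)), ?_, ?_⟩
    · generalize pr a p - h a = x
      generalize pr b q - h b = y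
      simp only [pr]
      rw [← mul_div_assoc, ← mul_div_assoc, ← add_div, div_eq_iff hne]
      ring
    · generalize pr a p - h a = x
      generalize pr b q - h b = y
      simp only [pr]
      rw [← mul_div_assoc, ← mul_div_assoc, ← add_div, div_eq_iff hne]
      ring
  obtain ⟨H, hH⟩ : ∃ H : ℝ × ℝ → ℝ, ∀ x, H x = h x + pr x t := ⟨fun x => h x + pr x t, fun x => rfl⟩
  have Hadd : ∀ x y, H (x + y) ≤ H x + H y := by
    intro x y
    rw [hH, hH, hH, pr_add_left]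
    linarith [hadd x y]
  have Hsmul : ∀ k : ℝ, 0 ≤ k → ∀ x, H (k • x) = k * H x := by
    intro k hk x
    rw [hH, hH, hsmul k hk, pr_smul_left]
    ring
  have HD : ∀ x, H x + H (-x) = h x + h (-x) := by
    intro x
    rw [hH, hH, pr_neg_left]
    ring
  have Ha : H a = pr a p := by rw [hH, hta]; ring
  have Hb : H b = pr b q := by rw [hH, htb]; ring
  have Hc : H c < pr c r := by
    have e : pr c t = -(pr a t) - pr b t := by
      rw [hc, pr_neg_left, pr_add_left]; ring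
    rw [hH, e, hta, htb]
    linarith
  have Hna : s * h (-a) ≤ H (-a) := by
    have e1 := HD a
    have e2 := U1 a ha1 ha2 p hp
    rw [Ha] at e1
    nlinarith
  have Hnb : s * h (-b) ≤ H (-b) := by
    have e1 := HD b
    have e2 := U1 b hb1 hb2 q hq
    rw [Hb] at e1
    nlinarith
  -- c is lower
  have hcd : dt g2 c ≤ 0 := by
    have : dt g2 c = -(dt g2 a) - dt g2 b := by
      rw [hc]; simp only [dt, Prod.fst_neg, Prod.snd_neg, Prod.fst_add, Prod.snd_add]; ring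
    rw [this]; linarith
  have hlow := lower s g2 g3 c r hg2 hg3 hgg (hP r hr).1 (hP r hr).2 (wall2 r hr) (wall3 r hr)
    (Or.inl hcd)
  have hcs : pr c r ≤ s * h c := by
    rcases hlow with ⟨k1, k2, k3⟩ | k | k
    · exact le_trans k1 (mul_nonneg hs0 (ws c k2 k3))
    · exact le_trans k (mul_le_mul_of_nonneg_left (h2 c) hs0)
    · exact le_trans k (mul_le_mul_of_nonneg_left (h3 c) hs0)
  have hcH : H c < s * h c := lt_of_lt_of_le Hc hcs
  have hg2ne : g2 ≠ 0 := by rintro rfl; simp at hg2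
  have hg3ne : g3 ≠ 0 := by rintro rfl; simp at hg3
  have hD2 : 0 < h g2 + h (-g2) := hD_pos A B hA hB h h2 h3 hE2 g2 hg2ne
  have hD3 : 0 < h g3 + h (-g3) := hD_pos A B hA hB h h2 h3 hE2 g3 hg3ne
  -- Claim D for q3
  have claimD3 : pr c q3 < H c := by
    by_contra hcq
    push Not at hcq
    have hag : dt a g3 ≠ 0 := ha2.ne'
    obtain ⟨α, hα⟩ : ∃ α, α = dt b g3 / dt a g3 := ⟨_, rfl⟩
    obtain ⟨γ, hγ⟩ : ∃ γ, γ = dt a b / dt a g3 := ⟨_, rfl⟩
    have hbdec : b = α • a + γ • g3 := by rw [hα, hγ]; exact decomp a g3 b hag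
    have hα0 : 0 < α := by rw [hα]; exact div_pos hb2 ha2
    have hγ0 : 0 < γ := by rw [hγ]; exact div_pos hab ha2
    -- (1+α)(-b) = γ (-g3) + α c
    have e1 : (1 + α) • (-b) = γ • (-g3) + α • c := by
      rw [hc]
      have : (1 + α) • (-b) = -b - α • b := by module
      rw [this]
      have : γ • (-g3) + α • (-(a + b)) = -(α • a + γ • g3) - α • b := by module
      rw [this, ← hbdec]
    have e2 : -pr b q3 ≤ H (-b) := by
      have := hD13 b q hq
      have := HD b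
      linarith
    have e3 : (1 + α) * H (-b) ≤ γ * H (-g3) + α * H c := by
      have := Hadd (γ • (-g3)) (α • c)
      rw [← e1, Hsmul _ (by linarith), Hsmul _ hγ0.le, Hsmul _ hα0.le] at this
      exact this
    have e4 : (1 + α) * (-pr b q3) = γ * (-pr g3 q3) + α * pr c q3 := by
      have := congrArg (fun x => pr x q3) e1
      simp only [pr_add_left, pr_smul_left, pr_neg_left] at this
      exact this
    have e5 : γ * (-pr g3 q3) ≤ γ * H (-g3) := by
      have k1 : (1 + α) * (-pr b q3) ≤ (1 + α) * H (-b) :=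
        mul_le_mul_of_nonneg_left e2 (by linarith)
      have k2 : α * H c ≤ α * pr c q3 := mul_le_mul_of_nonneg_left hcq hα0.le
      linarith
    have e6 : -pr g3 q3 ≤ H (-g3) := le_of_mul_le_mul_left e5 hγ0
    have e7 : H g3 ≤ s * g3.2 := by
      have := HD g3
      linarith
    have e8 : H g3 ≤ s * h g3 := le_trans e7 (mul_le_mul_of_nonneg_left (h3 g3) hs0)
    -- c + γ g3 = (1+α)(-a)
    have e9 : c + γ • g3 = (1 + α) • (-a) := by
      rw [hc, hbdec]; module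
    have e10 : (1 + α) * h (-a) ≤ h c + γ * h g3 := by
      have := hadd c (γ • g3)
      rw [e9, hsmul _ (by linarith), hsmul _ hγ0.le] at this
      exact this
    have e11 : (h c + γ * h g3) - (1 + α) * h (-a) = (H c + γ * H g3) - (1 + α) * H (-a) := by
      have := congrArg (fun x => pr x t) e9
      simp only [pr_add_left, pr_smul_left] at this
      rw [hH, hH, hH]
      linarith
    have e12 : γ * H g3 ≤ γ * (s * h g3) := mul_le_mul_of_nonneg_left e8 hγ0.le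
    have e13 : (1 + α) * (s * h (-a)) ≤ (1 + α) * H (-a) :=
      mul_le_mul_of_nonneg_left Hna (by linarith)
    -- def < s def
    have e14 : (h c + γ * h g3) - (1 + α) * h (-a)
        < s * ((h c + γ * h g3) - (1 + α) * h (-a)) := by
      have k : (H c + γ * H g3) - (1 + α) * H (-a)
          < s * ((h c + γ * h g3) - (1 + α) * h (-a)) := by linarith
      calc _ = _ := e11
        _ < _ := k
    have e15 : 0 ≤ (h c + γ * h g3) - (1 + α) * h (-a) := by linarith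
    have e16 := mul_le_mul_of_nonneg_right hs1.le e15
    linarith
  have claimD2 : pr c q2 < H c := by
    by_contra hcq
    push Not at hcq
    have hag : dt g2 b ≠ 0 := hb1.ne'
    obtain ⟨α, hα⟩ : ∃ α, α = dt g2 a / dt g2 b := ⟨_, rfl⟩
    obtain ⟨γ, hγ⟩ : ∃ γ, γ = dt a b / dt g2 b := ⟨_, rfl⟩
    have hadec : a = α • b + γ • g2 := by
      rw [hα, hγ, add_comm]; exact decomp g2 b a hag
    have hα0 : 0 < α := by rw [hα]; exact div_pos ha1 hb1
    have hγ0 : 0 < γ := by rw [hγ]; exact div_pos hab hb1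
    have e1 : (1 + α) • (-a) = γ • (-g2) + α • c := by
      rw [hc]
      have : (1 + α) • (-a) = -a - α • a := by module
      rw [this]
      have : γ • (-g2) + α • (-(a + b)) = -(α • b + γ • g2) - α • a := by module
      rw [this, ← hadec]
    have e2 : -pr a q2 ≤ H (-a) := by
      have := hD12 a p hp
      have := HD a
      linarith
    have e3 : (1 + α) * H (-a) ≤ γ * H (-g2) + α * H c := by
      have := Hadd (γ • (-g2)) (α • c)
      rw [← e1, Hsmul _ (by linarith), Hsmul _ hγ0.le, Hsmul _ hα0.le] at this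
      exact this
    have e4 : (1 + α) * (-pr a q2) = γ * (-pr g2 q2) + α * pr c q2 := by
      have := congrArg (fun x => pr x q2) e1
      simp only [pr_add_left, pr_smul_left, pr_neg_left] at this
      exact this
    have e5 : γ * (-pr g2 q2) ≤ γ * H (-g2) := by
      have k1 : (1 + α) * (-pr a q2) ≤ (1 + α) * H (-a) :=
        mul_le_mul_of_nonneg_left e2 (by linarith)
      have k2 : α * H c ≤ α * pr c q2 := mul_le_mul_of_nonneg_left hcq hα0.le
      linarith
    have e6 : -pr g2 q2 ≤ H (-g2) := le_of_mul_le_mul_left e5 hγ0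
    have e7 : H g2 ≤ s * g2.1 := by
      have := HD g2
      linarith
    have e8 : H g2 ≤ s * h g2 := le_trans e7 (mul_le_mul_of_nonneg_left (h2 g2) hs0)
    have e9 : c + γ • g2 = (1 + α) • (-b) := by
      rw [hc, hadec]; module
    have e10 : (1 + α) * h (-b) ≤ h c + γ * h g2 := by
      have := hadd c (γ • g2)
      rw [e9, hsmul _ (by linarith), hsmul _ hγ0.le] at this
      exact this
    have e11 : (h c + γ * h g2) - (1 + α) * h (-b) = (H c + γ * H g2) - (1 + α) * H (-b) := by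
      have := congrArg (fun x => pr x t) e9
      simp only [pr_add_left, pr_smul_left] at this
      rw [hH, hH, hH]
      linarith
    have e12 : γ * H g2 ≤ γ * (s * h g2) := mul_le_mul_of_nonneg_left e8 hγ0.le
    have e13 : (1 + α) * (s * h (-b)) ≤ (1 + α) * H (-b) :=
      mul_le_mul_of_nonneg_left Hnb (by linarith)
    have e14 : (h c + γ * h g2) - (1 + α) * h (-b)
        < s * ((h c + γ * h g2) - (1 + α) * h (-b)) := by
      have k : (H c + γ * H g2) - (1 + α) * H (-b)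
          < s * ((h c + γ * h g2) - (1 + α) * h (-b)) := by linarith
      calc _ = _ := e11
        _ < _ := k
    have e15 : 0 ≤ (h c + γ * h g2) - (1 + α) * h (-b) := by linarith
    have e16 := mul_le_mul_of_nonneg_right hs1.le e15
    linarith
  -- case x = s u2
  have caseA : s * c.1 ≤ H c := by
    by_contra hx
    push Not at hx
    have d1 : 0 < dt c g2 := by
      have : dt c g2 = dt g2 a + dt g2 b := by
        rw [hc]; simp only [dt, Prod.fst_neg, Prod.snd_neg, Prod.fst_add, Prod.snd_add]; ring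
      rw [this]; linarith
    have d2 : dt (-g3) g2 = dt g2 g3 := by
      simp only [dt, Prod.fst_neg, Prod.snd_neg]; ring
    have d3 : 0 < dt c (-g3) := by
      have : dt c (-g3) = dt a g3 + dt b g3 := by
        rw [hc]; simp only [dt, Prod.fst_neg, Prod.snd_neg, Prod.fst_add, Prod.snd_add]; ring
      rw [this]; linarith
    obtain ⟨κ, hκ⟩ : ∃ κ, κ = dt (-g3) g2 / dt c g2 := ⟨_, rfl⟩
    obtain ⟨l, hl⟩ : ∃ l, l = dt c (-g3) / dt c g2 := ⟨_, rfl⟩
    have hdec : -g3 = κ • c + l • g2 := by rw [hκ, hl]; exact decomp c g2 (-g3) d1.ne'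
    have hκ0 : 0 ≤ κ := by rw [hκ, d2]; exact div_nonneg hgg d1.le
    have hl0 : 0 ≤ l := by rw [hl]; exact div_nonneg d3.le d1.le
    have e1 : -pr g3 q3 = κ * pr c q3 + l * pr g2 q3 := by
      have := congrArg (fun x => pr x q3) hdec
      simp only [pr_add_left, pr_smul_left, pr_neg_left] at this
      exact this
    have e2 : -g3.1 = κ * c.1 + l * g2.1 := by
      have := congrArg (fun x => x.1) hdec
      simpa using this
    have e3 : κ * pr c q3 ≤ κ * (s * c.1) := mul_le_mul_of_nonneg_left (by linarith) hκ0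
    have e4 : l * pr g2 q3 ≤ l * (s * g2.1) := mul_le_mul_of_nonneg_left wall2q hl0
    have e5 : -pr g3 q3 ≤ s * (-g3.1) := by rw [e1, e2]; linarith
    have e6 : h g3 + h (-g3) ≤ s * (g3.2 - g3.1) := by linarith
    have e7 : g3.2 - g3.1 ≤ h g3 + h (-g3) := by
      have k1 := h3 g3
      have k2 := h2 (-g3)
      simp only [Prod.fst_neg] at k2
      linarith
    have e8 : s * (g3.2 - g3.1) ≤ s * (h g3 + h (-g3)) := mul_le_mul_of_nonneg_left e7 hs0
    have e9 : s * (h g3 + h (-g3)) < 1 * (h g3 + h (-g3)) := mul_lt_mul_of_pos_right hs1 hD3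
    linarith
  have caseB : s * c.2 ≤ H c := by
    by_contra hx
    push Not at hx
    have d1 : 0 < dt g3 c := by
      have : dt g3 c = dt a g3 + dt b g3 := by
        rw [hc]; simp only [dt, Prod.fst_neg, Prod.snd_neg, Prod.fst_add, Prod.snd_add]; ring
      rw [this]; linarith
    have d2 : dt g3 (-g2) = dt g2 g3 := by
      simp only [dt, Prod.fst_neg, Prod.snd_neg]; ring
    have d3 : 0 < dt (-g2) c := by
      have : dt (-g2) c = dt g2 a + dt g2 b := by
        rw [hc]; simp only [dt, Prod.fst_neg, Prod.snd_neg, Prod.fst_add, Prod.snd_add]; ring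
      rw [this]; linarith
    obtain ⟨κ, hκ⟩ : ∃ κ, κ = dt g3 (-g2) / dt g3 c := ⟨_, rfl⟩
    obtain ⟨l, hl⟩ : ∃ l, l = dt (-g2) c / dt g3 c := ⟨_, rfl⟩
    have hdec : -g2 = κ • c + l • g3 := by
      rw [hκ, hl, add_comm]; exact decomp g3 c (-g2) d1.ne'
    have hκ0 : 0 ≤ κ := by rw [hκ, d2]; exact div_nonneg hgg d1.le
    have hl0 : 0 ≤ l := by rw [hl]; exact div_nonneg d3.le d1.le
    have e1 : -pr g2 q2 = κ * pr c q2 + l * pr g3 q2 := by
      have := congrArg (fun x => pr x q2) hdec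
      simp only [pr_add_left, pr_smul_left, pr_neg_left] at this
      exact this
    have e2 : -g2.2 = κ * c.2 + l * g3.2 := by
      have := congrArg (fun x => x.2) hdec
      simpa using this
    have e3 : κ * pr c q2 ≤ κ * (s * c.2) := mul_le_mul_of_nonneg_left (by linarith) hκ0
    have e4 : l * pr g3 q2 ≤ l * (s * g3.2) := mul_le_mul_of_nonneg_left wall3q hl0
    have e5 : -pr g2 q2 ≤ s * (-g2.2) := by rw [e1, e2]; linarith
    have e6 : h g2 + h (-g2) ≤ s * (g2.1 - g2.2) := by linarith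
    have e7 : g2.1 - g2.2 ≤ h g2 + h (-g2) := by
      have k1 := h2 g2
      have k2 := h3 (-g2)
      simp only [Prod.snd_neg] at k2
      linarith
    have e8 : s * (g2.1 - g2.2) ≤ s * (h g2 + h (-g2)) := mul_le_mul_of_nonneg_left e7 hs0
    have e9 : s * (h g2 + h (-g2)) < 1 * (h g2 + h (-g2)) := mul_lt_mul_of_pos_right hs1 hD2
    linarith
  -- remaining case
  have hHc0 : H c < 0 := by
    rcases hlow with ⟨k1, _, _⟩ | k | k
    · linarith
    · linarith
    · linarith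
  have hc1neg : c.1 < 0 := by
    by_contra hx
    push Not at hx
    have := mul_nonneg hs0 hx
    linarith
  have hc2neg : c.2 < 0 := by
    by_contra hx
    push Not at hx
    have := mul_nonneg hs0 hx
    linarith
  have hspos : 0 < s := by
    rcases hs0.lt_or_eq with k | k
    · exact k
    · rw [← k] at caseA
      linarith
  -- I1
  have I1 : h c < (1 - s) * (-A * c.1 - B * c.2) := by
    have k1 := U2 a ha1 ha2 p hp
    have k2 := U2 b hb1 hb2 q hq
    have k3 : c.1 = -a.1 - b.1 := by rw [hc]; simp only [Prod.fst_neg, Prod.fst_add]; ring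
    have k4 : c.2 = -a.2 - b.2 := by rw [hc]; simp only [Prod.snd_neg, Prod.snd_add]; ring
    have k5 : H c = h c + h a + h b - pr a p - pr b q := by
      have e : pr c t = -(pr a t) - pr b t := by
        rw [hc, pr_neg_left, pr_add_left]; ring
      rw [hH, e, hta, htb]; ring
    rw [k3, k4]
    linarith
  -- I2
  have hq2c : gq' * c.2 + dq' * (-A * c.1 - B * c.2) < 0 := by rw [← hq2]; linarith
  have hq3c : gq * (-A * c.1 - B * c.2) + dq * c.1 < 0 := by rw [← hq3]; linarith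
  have w2 := wall2q
  have w3 := wall3q
  rw [hq3] at w2
  rw [hq2] at w3
  have t2 := ht2
  have t3 := ht3
  rw [hq2] at t2
  rw [hq3] at t3
  have E2a := hE2 g2
  have E2b := hE2 g3
  have E3a := hE3 g2
  have E3b := hE3 g3
  have E2c := hE2 (-g2)
  have E2d := hE2 (-g3)
  have E3c := hE3 (-g2)
  have E3d := hE3 (-g3)
  rw [neg_neg] at E2c E2d E3c E3d
  simp only [Prod.fst_neg, Prod.snd_neg] at E2c E2d E3c E3d
  have Z1 := h2 g2
  have Z2 := h2 g3
  have Z3 := h3 g2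
  have Z4 := h3 g3
  have Z5 := h2 (-g2)
  have Z6 := h2 (-g3)
  have Z7 := h3 (-g2)
  have Z8 := h3 (-g3)
  simp only [Prod.fst_neg, Prod.snd_neg] at Z5 Z6 Z7 Z8
  have I2x := I2 A B s hA hB hspos hs1 c.1 c.2 hc1neg hc2neg gq dq gq' dq' hgq hdq hgq' hdq'
    hq2c hq3c (-g2.1) (-g2.2) (h g2 + h (-g2)) hD2 (by linarith) (by linarith)
    (by linarith) (by linarith) (-g3.1) (-g3.2) (h g3 + h (-g3)) hD3 (by linarith) (by linarith)
    (by linarith) (by linarith)
  have I2y := I2 B A s hB hA hspos hs1 c.2 c.1 hc2neg hc1neg dq' gq' dq gq hdq' hgq' hdq hgq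
    (by linarith) (by linarith) (-g3.2) (-g3.1) (h g3 + h (-g3)) hD3 (by linarith) (by linarith)
    (by linarith) (by linarith) (-g2.2) (-g2.1) (h g2 + h (-g2)) hD2 (by linarith) (by linarith)
    (by linarith) (by linarith)
  apply hc3 c hc1neg hc2neg s hspos hs1
  refine ⟨I1, I2x, ?_⟩
  linarith

/-- combination of the bounds, given the bounds for non-core functionals -/
lemma combine (s : ℝ) (hs1 : s < 1)
    (h : ℝ × ℝ → ℝ) (hadd : ∀ a b, h (a + b) ≤ h a + h b)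
    (hsmul : ∀ t : ℝ, 0 ≤ t → ∀ a, h (t • a) = t * h a)
    (P : Set (ℝ × ℝ)) (core : ℝ × ℝ → Prop)
    (U1 : ∀ a, core a → ∀ p ∈ P, pr a p ≤ s * h a + (1 - s) * (h a + h (-a)))
    (L : ∀ a, ¬ core a → ∀ p ∈ P, pr a p ≤ s * h a)
    (a b c : ℝ × ℝ) (habc : a + b + c = 0) (hb : ¬ core b) (hc : ¬ core c)
    (p : ℝ × ℝ) (hp : p ∈ P) (q : ℝ × ℝ) (hq : q ∈ P) (r : ℝ × ℝ) (hr : r ∈ P) :
    pr a p + pr b q + pr c r ≤ h a + h b + h c := by
  have hD := hD_nonneg h hadd hsmul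
  have e1 : pr a p ≤ s * h a + (1 - s) * (h a + h (-a)) := by
    by_cases ha : core a
    · exact U1 a ha p hp
    · have := L a ha p hp
      have := mul_nonneg (sub_nonneg.2 hs1.le) (hD a)
      linarith
  have e2 := L b hb q hq
  have e3 := L c hc r hr
  have e4 : h (-a) ≤ h b + h c := by
    have : -a = b + c := by
      have : a + (b + c) = 0 := by rw [← habc]; abel
      exact neg_eq_of_add_eq_zero_right this
    rw [this]; exact hadd b c
  have e5 : (1 - s) * h (-a) ≤ (1 - s) * (h b + h c) :=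
    mul_le_mul_of_nonneg_left e4 (sub_nonneg.2 hs1.le)
  linarith

lemma combine_par (s : ℝ)
    (h : ℝ × ℝ → ℝ)
    (hsmul : ∀ t : ℝ, 0 ≤ t → ∀ a, h (t • a) = t * h a)
    (P : Set (ℝ × ℝ)) (core : ℝ × ℝ → Prop)
    (U1 : ∀ a, core a → ∀ p ∈ P, pr a p ≤ s * h a + (1 - s) * (h a + h (-a)))
    (L : ∀ a, ¬ core a → ∀ p ∈ P, pr a p ≤ s * h a)
    (a b c : ℝ × ℝ) (habc : a + b + c = 0) (k : ℝ) (hk : 0 ≤ k) (hbk : b = k • a)
    (ha : core a) (hc : ¬ core c)
    (p : ℝ × ℝ) (hp : p ∈ P) (q : ℝ × ℝ) (hq : q ∈ P) (r : ℝ × ℝ) (hr : r ∈ P) :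
    pr a p + pr b q + pr c r ≤ h a + h b + h c := by
  have hce : c = (1 + k) • (-a) := by
    have : c = -(a + b) := by
      have h1 : (a + b) + c = 0 := habc
      exact (neg_eq_of_add_eq_zero_right h1).symm
    rw [this, hbk]; module
  have e1 := U1 a ha p hp
  have e2 := U1 a ha q hq
  have e3 := L c hc r hr
  have e4 : pr b q = k * pr a q := by rw [hbk, pr_smul_left]
  have e5 : h b = k * h a := by rw [hbk, hsmul k hk]
  have e6 : h c = (1 + k) * h (-a) := by rw [hce, hsmul _ (by linarith)]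
  have e7 := mul_le_mul_of_nonneg_left e2 hk
  rw [e4, e5, e6]
  rw [e6] at e3
  nlinarith

end M1

open M1

/-- M1 (core lemma, in the coordinates `u_2 = (1,0)`, `u_3 = (0,1)`, `u_1 = (-A,-B)`). -/
theorem mcore
    (A B : ℝ) (hA : 0 < A) (hB : 0 < B)
    (h : ℝ × ℝ → ℝ) (hadd : ∀ a b, h (a + b) ≤ h a + h b)
    (hsmul : ∀ t : ℝ, 0 ≤ t → ∀ a, h (t • a) = t * h a)
    (h2 : ∀ a, pr a (1, 0) ≤ h a) (h3 : ∀ a, pr a (0, 1) ≤ h a)
    (hD2 : ∀ a, pr a (A, 1 + B) ≤ h a + h (-a)) (hD3 : ∀ a, pr a (-(1 + A), -B) ≤ h a + h (-a))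
    (φ1 φ2 φ3 : ℝ × ℝ)
    (n1 : pr φ1 (1, -1) = 1) (n2 : pr φ2 (A, 1 + B) = 1) (n3 : pr φ3 (-(1 + A), -B) = 1)
    (w1 : h φ1 + h (-φ1) = 1) (w2 : h φ2 + h (-φ2) = 1) (w3 : h φ3 + h (-φ3) = 1)
    (z12 : pr φ1 (A, 1 + B) < 0) (z13 : pr φ1 (-(1 + A), -B) < 0)
    (z21 : pr φ2 (1, -1) < 0) (z23 : pr φ2 (-(1 + A), -B) < 0)
    (z31 : pr φ3 (1, -1) < 0) (z32 : pr φ3 (A, 1 + B) < 0)
    (hc3 : ∀ c : ℝ × ℝ, c.1 < 0 → c.2 < 0 → ∀ s : ℝ, 0 < s → s < 1 →
      ¬ (h c < (1 - s) * pr c (-A, -B) ∧ (1 - s) * pr c (-A, -B) < (2 * s - 1) * (-c.1) ∧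
        (1 - s) * pr c (-A, -B) < (2 * s - 1) * (-c.2)))
    (s : ℝ) (P : Set (ℝ × ℝ)) (q2 q3 f2 f3 : ℝ × ℝ)
    (hP : ∀ p ∈ P, 0 ≤ p.1 ∧ 0 ≤ p.2)
    (hq2 : ∃ g d : ℝ, 0 ≤ g ∧ 0 ≤ d ∧ q2 = g • ((0 : ℝ), (1 : ℝ)) + d • (-A, -B))
    (hq3 : ∃ g d : ℝ, 0 ≤ g ∧ 0 ≤ d ∧ q3 = g • (-A, -B) + d • ((1 : ℝ), (0 : ℝ)))
    (hcap : ∀ p ∈ P, ∀ l m : ℝ, 0 ≤ l → 0 ≤ m →
      pr (-(l • φ3) + m • φ2) p ≤ h (-(l • φ3) + m • φ2) + h (-(-(l • φ3) + m • φ2))
        + s * pr (-(l • φ3) + m • φ2) (-A, -B))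
    (hf2 : f2 ≠ 0) (hf3 : f3 ≠ 0)
    (hf2E : ∃ l m : ℝ, 0 ≤ l ∧ 0 ≤ m ∧ f2 = -(l • φ1) + m • φ3)
    (hf3E : ∃ l m : ℝ, 0 ≤ l ∧ 0 ≤ m ∧ f3 = -(l • φ2) + m • φ1)
    (ht2 : h f2 + h (-f2) + s * pr f2 (1, 0) ≤ pr f2 q2)
    (ht3 : h f3 + h (-f3) + s * pr f3 (0, 1) ≤ pr f3 q3)
    (hD12 : ∀ a, ∀ p ∈ P, pr a (p - q2) ≤ h a + h (-a))
    (hD13 : ∀ a, ∀ p ∈ P, pr a (p - q3) ≤ h a + h (-a))
    (hD23 : ∀ a, pr a (q2 - q3) ≤ h a + h (-a))
    (a b c : ℝ × ℝ) (habc : a + b + c = 0)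
    (p : ℝ × ℝ) (hp : p ∈ P) (q : ℝ × ℝ) (hq : q ∈ P) (r : ℝ × ℝ) (hr : r ∈ P) :
    pr a p + pr b q + pr c r ≤ h a + h b + h c := by
  -- normalise the hypotheses
  have H2 : ∀ a : ℝ × ℝ, a.1 ≤ h a := by
    intro a; have := h2 a; simp only [pr] at this; linarith
  have H3 : ∀ a : ℝ × ℝ, a.2 ≤ h a := by
    intro a; have := h3 a; simp only [pr] at this; linarith
  have HE2 : ∀ a : ℝ × ℝ, A * a.1 + (1 + B) * a.2 ≤ h a + h (-a) := by
    intro a; have := hD2 a; simp only [pr] at this; linarith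
  have HE3 : ∀ a : ℝ × ℝ, -(1 + A) * a.1 - B * a.2 ≤ h a + h (-a) := by
    intro a; have := hD3 a; simp only [pr] at this; linarith
  have Hc3 : ∀ c : ℝ × ℝ, c.1 < 0 → c.2 < 0 → ∀ s : ℝ, 0 < s → s < 1 →
      ¬ (h c < (1 - s) * (-A * c.1 - B * c.2) ∧
        (1 - s) * (-A * c.1 - B * c.2) < (2 * s - 1) * (-c.1) ∧
        (1 - s) * (-A * c.1 - B * c.2) < (2 * s - 1) * (-c.2)) := by
    intro c k1 k2 s k3 k4 k5
    apply hc3 c k1 k2 s k3 k4
    have : pr c (-A, -B) = -A * c.1 - B * c.2 := by simp only [pr]; ring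
    rw [this]; exact k5
  -- weak star
  have ws : ∀ c : ℝ × ℝ, c.1 < 0 → c.2 < 0 → 0 ≤ h c := by
    intro c k1 k2
    by_contra hcon
    push Not at hcon
    have hc1 : 0 < -A * c.1 - B * c.2 := by
      have t1 := mul_pos hA (neg_pos.2 k1)
      have t2 := mul_pos hB (neg_pos.2 k2)
      linarith
    obtain ⟨m, hm0, hm1, hm2⟩ : ∃ m : ℝ, 0 < m ∧ m ≤ -c.1 ∧ m ≤ -c.2 :=
      ⟨min (-c.1) (-c.2), lt_min (by linarith) (by linarith), min_le_left _ _, min_le_right _ _⟩
    -- s with (1-s) c1 < (2s-1) m : s = 1 - ε, ε c1 < (1-2ε) m, ε = m/(2(c1+2m))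
    obtain ⟨C, hC⟩ : ∃ C, C = -A * c.1 - B * c.2 := ⟨_, rfl⟩
    rw [← hC] at hc1
    obtain ⟨ε, hε⟩ : ∃ ε, ε = m / (2 * (C + 2 * m)) := ⟨_, rfl⟩
    have hden : 0 < 2 * (C + 2 * m) := by linarith
    have hε0 : 0 < ε := by rw [hε]; positivity
    have hεm : ε * (2 * (C + 2 * m)) = m := by rw [hε]; exact div_mul_cancel₀ _ hden.ne'
    have hε1 : ε < 1 / 2 := by
      rw [hε, div_lt_iff₀ hden]; linarith
    have e1 : ε * C < (1 - 2 * ε) * m := by nlinarith
    have e2 : (1 - 2 * ε) * m ≤ (1 - 2 * ε) * (-c.1) :=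
      mul_le_mul_of_nonneg_left hm1 (by linarith)
    have e3 : (1 - 2 * ε) * m ≤ (1 - 2 * ε) * (-c.2) :=
      mul_le_mul_of_nonneg_left hm2 (by linarith)
    apply Hc3 c k1 k2 (1 - ε) (by linarith) (by linarith)
    rw [← hC]
    refine ⟨?_, ?_, ?_⟩
    · have := mul_pos hε0 hc1
      linarith
    · linarith
    · linarith
  have ws' : ∀ c : ℝ × ℝ, c.1 ≤ 0 → c.2 ≤ 0 → 0 ≤ h c := by
    intro c k1 k2
    rcases k1.lt_or_eq with j1 | j1
    · rcases k2.lt_or_eq with j2 | j2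
      · exact ws c j1 j2
      · have := H3 c; linarith
    · have := H2 c; linarith
  -- functionals
  simp only [pr] at n1 n2 n3 z12 z13 z21 z23 z31 z32
  have p11 : 0 < φ1.1 := by nlinarith
  have p12 : φ1.2 < 0 := by nlinarith
  have p21 : φ2.1 < φ2.2 := by linarith
  have p22 : 0 < φ2.2 := by
    by_contra hcon
    push Not at hcon
    have : A * φ2.1 ≤ 0 := by nlinarith
    have : (1 + B) * φ2.2 ≤ 0 := by nlinarith
    linarith
  have p31 : φ3.1 < φ3.2 := by linarith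
  have p32 : φ3.1 < 0 := by
    by_contra hcon
    push Not at hcon
    have t1 : 0 ≤ (1 + A) * φ3.1 := by positivity
    have t2 : 0 ≤ B * φ3.2 := mul_nonneg hB.le (by linarith)
    linarith
  -- values at u1
  have v1 : -A * φ1.1 - B * φ1.2 < φ1.1 := by linarith
  have v1' : φ1.2 < -A * φ1.1 - B * φ1.2 := by linarith
  have v2 : -A * φ2.1 - B * φ2.2 = φ2.2 - 1 := by linarith
  have v2' : -A * φ2.1 - B * φ2.2 < φ2.1 := by linarith
  have v3 : -A * φ3.1 - B * φ3.2 = φ3.1 + 1 := by linarith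
  have v3' : φ3.2 < -A * φ3.1 - B * φ3.2 := by linarith
  have v2n : -A * φ2.1 - B * φ2.2 < 0 := by
    by_contra hcon
    push Not at hcon
    have t1 : 0 < A * φ2.1 := mul_pos hA (by linarith)
    have t2 : 0 < B * φ2.2 := mul_pos hB (by linarith)
    linarith
  have v3n : 0 < -A * φ3.1 - B * φ3.2 := by
    by_contra hcon
    push Not at hcon
    have t1 : 0 < A * (-φ3.1) := mul_pos hA (by linarith)
    have t2 : 0 < B * (-φ3.2) := mul_pos hB (by linarith)
    linarith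
  -- determinants
  have hAB : 0 < 1 + A + B := by linarith
  have D12 : 0 < dt φ1 φ2 := by
    have e : (1 + A + B) * dt φ1 φ2
        = (φ1.1 - φ1.2) * (A * φ2.1 + (1 + B) * φ2.2)
          - (A * φ1.1 + (1 + B) * φ1.2) * (φ2.1 - φ2.2) := by simp only [dt]; ring
    have k1 : φ1.1 - φ1.2 = 1 := by linarith
    have k2 : A * φ2.1 + (1 + B) * φ2.2 = 1 := by linarith
    rw [k1, k2] at e
    have k3 : -1 < A * φ1.1 + (1 + B) * φ1.2 := by linarith
    have k4 : -1 < φ2.1 - φ2.2 := by linarith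
    have k5 : φ2.1 - φ2.2 < 0 := by linarith
    have k6 : A * φ1.1 + (1 + B) * φ1.2 < 0 := by linarith
    have k7 : (A * φ1.1 + (1 + B) * φ1.2) * (φ2.1 - φ2.2) < 1 := by nlinarith
    have : 0 < (1 + A + B) * dt φ1 φ2 := by rw [e]; linarith
    exact (mul_pos_iff_of_pos_left hAB).1 this
  have D23 : 0 < dt φ2 φ3 := by
    have e : (1 + A + B) * dt φ2 φ3
        = (φ2.1 - φ2.2) * (A * φ3.1 + (1 + B) * φ3.2)
          - (A * φ2.1 + (1 + B) * φ2.2) * (φ3.1 - φ3.2) := by simp only [dt]; ring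
    have k2 : A * φ2.1 + (1 + B) * φ2.2 = 1 := by linarith
    rw [k2] at e
    have k3 : 0 < (φ2.2 - φ2.1) * (-(A * φ3.1 + (1 + B) * φ3.2)) :=
      mul_pos (by linarith) (by linarith)
    have : 0 < (1 + A + B) * dt φ2 φ3 := by rw [e]; linarith
    exact (mul_pos_iff_of_pos_left hAB).1 this
  have D31 : 0 < dt φ3 φ1 := by
    have e : (1 + A + B) * dt φ3 φ1
        = (φ3.1 - φ3.2) * (A * φ1.1 + (1 + B) * φ1.2)
          - (A * φ3.1 + (1 + B) * φ3.2) * (φ1.1 - φ1.2) := by simp only [dt]; ring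
    have k2 : φ1.1 - φ1.2 = 1 := by linarith
    rw [k2] at e
    have k3 : 0 < (φ3.2 - φ3.1) * (-(A * φ1.1 + (1 + B) * φ1.2)) :=
      mul_pos (by linarith) (by linarith)
    have : 0 < (1 + A + B) * dt φ3 φ1 := by rw [e]; linarith
    exact (mul_pos_iff_of_pos_left hAB).1 this
  -- the functionals g2, g3
  obtain ⟨l2, m2, hl2, hm2, hf2e⟩ := hf2E
  obtain ⟨l3, m3, hl3, hm3, hf3e⟩ := hf3E
  obtain ⟨g2, hg2⟩ : ∃ g2 : ℝ × ℝ, g2 = -f2 := ⟨_, rfl⟩
  obtain ⟨g3, hg3⟩ : ∃ g3 : ℝ × ℝ, g3 = -f3 := ⟨_, rfl⟩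
  have hf2n : f2 = -g2 := by rw [hg2, neg_neg]
  have hf3n : f3 = -g3 := by rw [hg3, neg_neg]
  have g2a : g2.1 = l2 * φ1.1 - m2 * φ3.1 := by
    rw [hg2, hf2e]
    simp only [Prod.fst_neg, Prod.fst_add, Prod.smul_fst, smul_eq_mul]; ring
  have g2b : g2.2 = l2 * φ1.2 - m2 * φ3.2 := by
    rw [hg2, hf2e]
    simp only [Prod.snd_neg, Prod.snd_add, Prod.smul_snd, smul_eq_mul]; ring
  have g3a : g3.1 = l3 * φ2.1 - m3 * φ1.1 := by
    rw [hg3, hf3e]
    simp only [Prod.fst_neg, Prod.fst_add, Prod.smul_fst, smul_eq_mul]; ring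
  have g3b : g3.2 = l3 * φ2.2 - m3 * φ1.2 := by
    rw [hg3, hf3e]
    simp only [Prod.snd_neg, Prod.snd_add, Prod.smul_snd, smul_eq_mul]; ring
  have hlm2 : 0 < l2 + m2 := by
    by_contra hcon
    push Not at hcon
    have k1 : l2 = 0 := by linarith
    have k2 : m2 = 0 := by linarith
    apply hf2
    rw [hf2e, k1, k2]; simp
  have hlm3 : 0 < l3 + m3 := by
    by_contra hcon
    push Not at hcon
    have k1 : l3 = 0 := by linarith
    have k2 : m3 = 0 := by linarith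
    apply hf3
    rw [hf3e, k1, k2]; simp
  -- positivity of combinations
  have comb : ∀ l m x y : ℝ, 0 ≤ l → 0 ≤ m → 0 < l + m → 0 < x → 0 < y → 0 < l * x + m * y := by
    intro l m x y hl hm hlm hx hy
    rcases hl.lt_or_eq with h | h
    · have := mul_pos h hx
      have := mul_nonneg hm hy.le
      linarith
    · have hm' : 0 < m := by linarith
      have := mul_pos hm' hy
      rw [← h]; linarith
  have G2pos : 0 < g2.1 := by
    have := comb l2 m2 φ1.1 (-φ3.1) hl2 hm2 hlm2 p11 (by linarith)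
    rw [g2a]; linarith
  have G3pos : 0 < g3.2 := by
    have := comb l3 m3 φ2.2 (-φ1.2) hl3 hm3 hlm3 p22 (by linarith)
    rw [g3b]; linarith
  have G2u : 0 < g2.1 - (-A * g2.1 - B * g2.2) := by
    have := comb l2 m2 (φ1.1 - (-A * φ1.1 - B * φ1.2)) (-φ3.1 + (-A * φ3.1 - B * φ3.2))
      hl2 hm2 hlm2 (by linarith) (by linarith)
    rw [g2a, g2b]; linarith
  have G3u : 0 < g3.2 - (-A * g3.1 - B * g3.2) := by
    have := comb l3 m3 (φ2.2 - (-A * φ2.1 - B * φ2.2)) (-φ1.2 + (-A * φ1.1 - B * φ1.2))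
      hl3 hm3 hlm3 (by linarith) (by linarith)
    rw [g3a, g3b]; linarith
  have GG : 0 ≤ dt g2 g3 := by
    have e : dt g2 g3 = l2 * l3 * dt φ1 φ2 + m2 * l3 * dt φ2 φ3 + m2 * m3 * dt φ3 φ1 := by
      simp only [dt]
      rw [g2a, g2b, g3a, g3b]; ring
    rw [e]
    have t1 := mul_nonneg (mul_nonneg hl2 hl3) D12.le
    have t2 := mul_nonneg (mul_nonneg hm2 hl3) D23.le
    have t3 := mul_nonneg (mul_nonneg hm2 hm3) D31.le
    linarith
  -- walls
  have Ht2 : h g2 + h (-g2) + pr g2 q2 ≤ s * g2.1 := by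
    have k := ht2
    rw [hf2n, neg_neg] at k
    simp only [pr, Prod.fst_neg, Prod.snd_neg] at k ⊢
    linarith
  have Ht3 : h g3 + h (-g3) + pr g3 q3 ≤ s * g3.2 := by
    have k := ht3
    rw [hf3n, neg_neg] at k
    simp only [pr, Prod.fst_neg, Prod.snd_neg] at k ⊢
    linarith
  have HD12 : ∀ a, ∀ p ∈ P, pr a p - pr a q2 ≤ h a + h (-a) := by
    intro a p hp; have := hD12 a p hp; rwa [pr_sub_right] at this
  have HD13 : ∀ a, ∀ p ∈ P, pr a p - pr a q3 ≤ h a + h (-a) := by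
    intro a p hp; have := hD13 a p hp; rwa [pr_sub_right] at this
  have wall2 : ∀ p ∈ P, pr g2 p ≤ s * g2.1 := by
    intro p hp; have := HD12 g2 p hp; linarith
  have wall3 : ∀ p ∈ P, pr g3 p ≤ s * g3.2 := by
    intro p hp; have := HD13 g3 p hp; linarith
  have wall2q : pr g2 q3 ≤ s * g2.1 := by
    have := hD23 (-g2)
    rw [pr_sub_right, pr_neg_left, pr_neg_left, neg_neg] at this
    linarith
  have wall3q : pr g3 q2 ≤ s * g3.2 := by
    have := hD23 g3
    rw [pr_sub_right] at this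
    linarith
  -- caps on E_1
  have hDn := hD_nonneg h hadd hsmul
  have cap : ∀ l m : ℝ, 0 ≤ l → 0 ≤ m → ∀ x : ℝ × ℝ, x = l • (-φ3) + m • φ2 → ∀ p ∈ P,
      pr x p ≤ h x + h (-x) + s * (-A * x.1 - B * x.2) := by
    intro l m hl hm x hx p hp
    have k := hcap p hp l m hl hm
    have e : -(l • φ3) + m • φ2 = x := by rw [hx, smul_neg]
    rw [e] at k
    have e2 : pr x (-A, -B) = -A * x.1 - B * x.2 := by simp only [pr]; ring
    rw [e2] at k
    exact k
  -- SG
  have sg3 : h φ3 ≤ -A * φ3.1 - B * φ3.2 := by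
    have := H2 (-φ3)
    simp only [Prod.fst_neg] at this
    linarith
  have sg2 : h (-φ2) ≤ -(-A * φ2.1 - B * φ2.2) := by
    have := H3 φ2
    linarith
  have SG : ∀ l m : ℝ, 0 ≤ l → 0 ≤ m → ∀ x : ℝ × ℝ, x = l • (-φ3) + m • φ2 →
      h (-x) ≤ -(-A * x.1 - B * x.2) := by
    intro l m hl hm x hx
    have e : -x = l • φ3 + m • (-φ2) := by rw [hx]; module
    have k1 := hadd (l • φ3) (m • (-φ2))
    rw [← e, hsmul l hl, hsmul m hm] at k1
    have k2 := mul_le_mul_of_nonneg_left sg3 hl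
    have k3 := mul_le_mul_of_nonneg_left sg2 hm
    have x1 : x.1 = -(l * φ3.1) + m * φ2.1 := by rw [hx]; simp
    have x2 : x.2 = -(l * φ3.2) + m * φ2.2 := by rw [hx]; simp
    rw [x1, x2]
    linarith
  -- phase A
  rcases lt_or_ge s 0 with hsneg | hs0
  · exfalso
    have k1 := wall2 p hp
    have k2 := wall3 p hp
    obtain ⟨k3, k4⟩ := hP p hp
    have k5 : s * g2.1 < 0 := mul_neg_of_neg_of_pos hsneg G2pos
    have k6 : s * g3.2 < 0 := mul_neg_of_neg_of_pos hsneg G3pos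
    simp only [pr, dt] at k1 k2 GG
    -- g2.1 p1 + g2.2 p2 < 0, g3.1 p1 + g3.2 p2 < 0
    have j1 : g2.1 * p.1 + g2.2 * p.2 < 0 := by linarith
    have j2 : g3.1 * p.1 + g3.2 * p.2 < 0 := by linarith
    have i1 : 0 ≤ g2.1 * p.1 := mul_nonneg G2pos.le k3
    have i2 : 0 ≤ g3.2 * p.2 := mul_nonneg G3pos.le k4
    have i3 : 0 < p.2 := by
      rcases k4.lt_or_eq with h | h
      · exact h
      · rw [← h] at j1; linarith
    have i4 : 0 < p.1 := by
      rcases k3.lt_or_eq with h | h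
      · exact h
      · rw [← h] at j2; linarith
    -- multiply
    have n1' : g2.2 * p.2 < -(g2.1 * p.1) := by linarith
    have n2' : g3.1 * p.1 < -(g3.2 * p.2) := by linarith
    have m1 : (g2.1 * p.1) * (g3.2 * p.2) < (-(g2.2 * p.2)) * (-(g3.1 * p.1)) := by
      have a1 : 0 < g2.1 * p.1 := mul_pos G2pos i4
      have a2 : 0 < g3.2 * p.2 := mul_pos G3pos i3
      have b1 : g2.1 * p.1 < -(g2.2 * p.2) := by linarith
      have b2 : g3.2 * p.2 < -(g3.1 * p.1) := by linarith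
      exact mul_lt_mul'' b1 b2 a1.le a2.le
    have m2' : 0 < p.1 * p.2 := mul_pos i4 i3
    have m3' : (g2.1 * g3.2 - g2.2 * g3.1) * (p.1 * p.2) < 0 := by linarith
    have m4' := mul_nonneg GG m2'.le
    linarith
  rcases le_or_gt 1 s with hs1 | hs1
  · -- phase B
    have key : ∀ x ∈ P, ∀ c : ℝ × ℝ, pr c x ≤ h c := by
      intro x hx c
      obtain ⟨x1, x2⟩ := hP x hx
      have c3 : pr (-φ3) x ≤ -φ3.1 := by
        have k := cap 1 0 zero_le_one le_rfl (-φ3) (by simp) x hx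
        rw [neg_neg] at k
        simp only [Prod.fst_neg, Prod.snd_neg] at k
        have k2 : -A * -φ3.1 - B * -φ3.2 = -(-A * φ3.1 - B * φ3.2) := by ring
        rw [k2] at k
        have k3 : 1 * (-A * φ3.1 - B * φ3.2) ≤ s * (-A * φ3.1 - B * φ3.2) :=
          mul_le_mul_of_nonneg_right hs1 v3n.le
        linarith
      have c2 : pr φ2 x ≤ φ2.2 := by
        have k := cap 0 1 le_rfl zero_le_one φ2 (by simp) x hx
        have k3 : s * (-A * φ2.1 - B * φ2.2) ≤ 1 * (-A * φ2.1 - B * φ2.2) :=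
          mul_le_mul_of_nonpos_right hs1 v2n.le
        linarith
      have c1 : pr φ1 x ≤ φ1.1 := by
        by_contra hcon
        push Not at hcon
        simp only [pr, dt, Prod.fst_neg, Prod.snd_neg] at hcon c3 D31
        have j1 : 0 < (φ1.1 * (x.1 - 1) + φ1.2 * x.2) * (-φ3.1) :=
          mul_pos (by linarith) (by linarith)
        have j2 : 0 ≤ (φ3.1 * (x.1 - 1) + φ3.2 * x.2) * φ1.1 :=
          mul_nonneg (by linarith) p11.le
        have j3 : 0 ≤ (φ3.1 * φ1.2 - φ3.2 * φ1.1) * x.2 := mul_nonneg D31.le x2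
        linarith
      have c1' : pr (-φ1) x ≤ -φ1.2 := by
        by_contra hcon
        push Not at hcon
        simp only [pr, dt, Prod.fst_neg, Prod.snd_neg] at hcon c2 D12
        have j1 : 0 < (-φ1.1 * x.1 - φ1.2 * (x.2 - 1)) * φ2.2 :=
          mul_pos (by linarith) (by linarith)
        have j2 : 0 ≤ (-(φ2.1 * x.1) - φ2.2 * (x.2 - 1)) * (-φ1.2) :=
          mul_nonneg (by linarith) (by linarith)
        have j3 : 0 ≤ (φ1.1 * φ2.2 - φ1.2 * φ2.1) * x.1 := mul_nonneg D12.le x1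
        linarith
      rcases le_or_gt (dt φ1 c) 0 with hlo | hup
      · -- lower half
        have y1 : 0 < (-φ1).2 := by simp only [Prod.snd_neg]; linarith
        have y2 : 0 ≤ dt φ1 (-φ1) := by
          have : dt φ1 (-φ1) = 0 := by simp only [dt, Prod.fst_neg, Prod.snd_neg]; ring
          rw [this]
        have y3 : pr (-φ1) x ≤ 1 * (-φ1).2 := by simp only [Prod.snd_neg]; linarith
        have := lower 1 φ1 (-φ1) c x p11 y1 y2 x1 x2 (by linarith) y3 (Or.inl hlo)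
        rcases this with ⟨k1, k2, k3⟩ | k | k
        · exact le_trans k1 (ws c k2 k3)
        · rw [one_mul] at k; exact le_trans k (H2 c)
        · rw [one_mul] at k; exact le_trans k (H3 c)
      · rcases le_or_gt (dt (-φ3) c) 0 with hv | hv
        · -- V_2
          have d : 0 < dt φ1 (-φ3) := by
            have : dt φ1 (-φ3) = dt φ3 φ1 := by simp only [dt, Prod.fst_neg, Prod.snd_neg]; ring
            rw [this]; exact D31
          have dec := decomp φ1 (-φ3) c d.ne'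
          obtain ⟨α, hα⟩ : ∃ α, α = dt c (-φ3) / dt φ1 (-φ3) := ⟨_, rfl⟩
          obtain ⟨γ, hγ⟩ : ∃ γ, γ = dt φ1 c / dt φ1 (-φ3) := ⟨_, rfl⟩
          rw [← hα, ← hγ] at dec
          have hα0 : 0 ≤ α := by
            rw [hα]; apply div_nonneg _ d.le
            have : dt c (-φ3) = -dt (-φ3) c := by simp only [dt]; ring
            rw [this]; linarith
          have hγ0 : 0 ≤ γ := by rw [hγ]; exact div_nonneg hup.le d.le
          have e1 : pr c x = α * pr φ1 x + γ * pr (-φ3) x := by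
            rw [dec, pr_add_left, pr_smul_left, pr_smul_left]
          have e2 : c.1 = α * φ1.1 + γ * (-φ3.1) := by rw [dec]; simp
          have e3 := mul_le_mul_of_nonneg_left c1 hα0
          have e4 := mul_le_mul_of_nonneg_left c3 hγ0
          have e5 := H2 c
          linarith
        · rcases le_or_gt 0 (dt c φ2) with hw | hw
          · -- E_1
            have d : 0 < dt (-φ3) φ2 := by
              have : dt (-φ3) φ2 = dt φ2 φ3 := by simp only [dt, Prod.fst_neg, Prod.snd_neg]; ring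
              rw [this]; exact D23
            have dec := decomp (-φ3) φ2 c d.ne'
            obtain ⟨α, hα⟩ : ∃ α, α = dt c φ2 / dt (-φ3) φ2 := ⟨_, rfl⟩
            obtain ⟨γ, hγ⟩ : ∃ γ, γ = dt (-φ3) c / dt (-φ3) φ2 := ⟨_, rfl⟩
            rw [← hα, ← hγ] at dec
            have hα0 : 0 ≤ α := by rw [hα]; exact div_nonneg hw d.le
            have hγ0 : 0 ≤ γ := by rw [hγ]; exact div_nonneg hv.le d.le
            have e1 := cap α γ hα0 hγ0 c dec x hx
            have e2 := SG α γ hα0 hγ0 c dec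
            -- c(u1) ≤ 0
            have e3 : -A * c.1 - B * c.2 ≤ 0 := by
              have k1 : -A * c.1 - B * c.2 = α * (-(-A * φ3.1 - B * φ3.2))
                  + γ * (-A * φ2.1 - B * φ2.2) := by
                have y1 : c.1 = -(α * φ3.1) + γ * φ2.1 := by rw [dec]; simp
                have y2 : c.2 = -(α * φ3.2) + γ * φ2.2 := by rw [dec]; simp
                rw [y1, y2]; ring
              have k2 := mul_nonneg hα0 v3n.le
              have k3 := mul_nonneg hγ0 (neg_nonneg.2 v2n.le)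
              rw [k1]; linarith
            have e4 : s * (-A * c.1 - B * c.2) ≤ 1 * (-A * c.1 - B * c.2) :=
              mul_le_mul_of_nonpos_right hs1 e3
            linarith
          · -- V_3
            have d : 0 < dt φ2 (-φ1) := by
              have : dt φ2 (-φ1) = dt φ1 φ2 := by simp only [dt, Prod.fst_neg, Prod.snd_neg]; ring
              rw [this]; exact D12
            have dec := decomp φ2 (-φ1) c d.ne'
            obtain ⟨α, hα⟩ : ∃ α, α = dt c (-φ1) / dt φ2 (-φ1) := ⟨_, rfl⟩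
            obtain ⟨γ, hγ⟩ : ∃ γ, γ = dt φ2 c / dt φ2 (-φ1) := ⟨_, rfl⟩
            rw [← hα, ← hγ] at dec
            have hα0 : 0 ≤ α := by
              rw [hα]; apply div_nonneg _ d.le
              have : dt c (-φ1) = dt φ1 c := by simp only [dt, Prod.fst_neg, Prod.snd_neg]; ring
              rw [this]; exact hup.le
            have hγ0 : 0 ≤ γ := by
              rw [hγ]; apply div_nonneg _ d.le
              have : dt φ2 c = -dt c φ2 := by simp only [dt]; ring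
              rw [this]; linarith
            have e1 : pr c x = α * pr φ2 x + γ * pr (-φ1) x := by
              rw [dec, pr_add_left, pr_smul_left, pr_smul_left]
            have e2 : c.2 = α * φ2.2 + γ * (-φ1.2) := by rw [dec]; simp
            have e3 := mul_le_mul_of_nonneg_left c2 hα0
            have e4 := mul_le_mul_of_nonneg_left c1' hγ0
            have e5 := H3 c
            linarith
    have e1 := key p hp a
    have e2 := key q hq b
    have e3 := key r hr c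
    linarith
  · -- phase C
    obtain ⟨gq', dq', hgq', hdq', hq2e⟩ := hq2
    obtain ⟨gq, dq, hgq, hdq, hq3e⟩ := hq3
    have Hq2 : ∀ a : ℝ × ℝ, pr a q2 = gq' * a.2 + dq' * (-A * a.1 - B * a.2) := by
      intro a; rw [hq2e]
      simp only [pr, Prod.fst_add, Prod.snd_add, Prod.smul_fst, Prod.smul_snd, smul_eq_mul]
      ring
    have Hq3 : ∀ a : ℝ × ℝ, pr a q3 = gq * (-A * a.1 - B * a.2) + dq * a.1 := by
      intro a; rw [hq3e]
      simp only [pr, Prod.fst_add, Prod.snd_add, Prod.smul_fst, Prod.smul_snd, smul_eq_mul]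
      ring
    -- classification of core functionals: bound (common to U1 and U2)
    -- either a ∈ E_1, or a(p) ≤ s a(u2) + m(1-s), m ≤ a(u2-u1), or a(p) ≤ s a(u3) + m (1-s), m ≤ a(u3 - u1)
    have bnd : ∀ a, 0 < dt g2 a → 0 < dt a g3 → ∀ p ∈ P,
        (pr a p ≤ h a + h (-a) + s * (-A * a.1 - B * a.2) ∧ h (-a) ≤ -(-A * a.1 - B * a.2)) ∨
        (∃ m, m ≤ a.1 - (-A * a.1 - B * a.2) ∧ pr a p ≤ s * a.1 + (1 - s) * m) ∨
        (∃ m, m ≤ a.2 - (-A * a.1 - B * a.2) ∧ pr a p ≤ s * a.2 + (1 - s) * m) := by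
      intro a ha1 ha2 p hp
      have c3 : pr (-φ3) p ≤ 1 - s * (-A * φ3.1 - B * φ3.2) := by
        have k := cap 1 0 zero_le_one le_rfl (-φ3) (by simp) p hp
        rw [neg_neg] at k
        simp only [Prod.fst_neg, Prod.snd_neg] at k
        linarith
      have c2 : pr φ2 p ≤ 1 + s * (-A * φ2.1 - B * φ2.2) := by
        have k := cap 0 1 le_rfl zero_le_one φ2 (by simp) p hp
        linarith
      rcases le_or_gt (dt (-φ3) a) 0 with hv | hv
      · right; left
        -- a in cone(g2, -φ3)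
        have d0 : dt g2 (-φ3) = l2 * dt φ3 φ1 := by
          simp only [dt, Prod.fst_neg, Prod.snd_neg]; rw [g2a, g2b]; ring
        have d : 0 < dt g2 (-φ3) := by
          rw [d0]
          rcases hl2.lt_or_eq with k | k
          · exact mul_pos k D31
          · exfalso
            have e : dt g2 a = m2 * dt (-φ3) a := by
              simp only [dt, Prod.fst_neg, Prod.snd_neg]; rw [g2a, g2b, ← k]; ring
            have := mul_nonneg hm2 (neg_nonneg.2 hv)
            rw [e] at ha1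
            linarith
        have dec := decomp g2 (-φ3) a d.ne'
        obtain ⟨α, hα⟩ : ∃ α, α = dt a (-φ3) / dt g2 (-φ3) := ⟨_, rfl⟩
        obtain ⟨γ, hγ⟩ : ∃ γ, γ = dt g2 a / dt g2 (-φ3) := ⟨_, rfl⟩
        rw [← hα, ← hγ] at dec
        have hα0 : 0 ≤ α := by
          rw [hα]; apply div_nonneg _ d.le
          have : dt a (-φ3) = -dt (-φ3) a := by simp only [dt]; ring
          rw [this]; linarith
        have hγ0 : 0 ≤ γ := by rw [hγ]; exact div_nonneg ha1.le d.le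
        have e1 : pr a p = α * pr g2 p + γ * pr (-φ3) p := by
          rw [dec, pr_add_left, pr_smul_left, pr_smul_left]
        have e2 : a.1 = α * g2.1 + γ * (-φ3.1) := by rw [dec]; simp
        have e2' : a.2 = α * g2.2 + γ * (-φ3.2) := by rw [dec]; simp
        have e3 := mul_le_mul_of_nonneg_left (wall2 p hp) hα0
        have e4 := mul_le_mul_of_nonneg_left c3 hγ0
        refine ⟨γ, ?_, ?_⟩
        · have k1 := mul_nonneg hα0 G2u.le
          rw [e2, e2']
          have k2 : γ * (-A * φ3.1 - B * φ3.2) = γ * (φ3.1 + 1) := by rw [v3]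
          linarith
        · rw [e1, e2]
          have k2 : γ * (s * (-A * φ3.1 - B * φ3.2)) = γ * (s * (φ3.1 + 1)) := by rw [v3]
          linarith
      · rcases le_or_gt 0 (dt a φ2) with hw | hw
        · left
          have d : 0 < dt (-φ3) φ2 := by
            have : dt (-φ3) φ2 = dt φ2 φ3 := by simp only [dt, Prod.fst_neg, Prod.snd_neg]; ring
            rw [this]; exact D23
          have dec := decomp (-φ3) φ2 a d.ne'
          obtain ⟨α, hα⟩ : ∃ α, α = dt a φ2 / dt (-φ3) φ2 := ⟨_, rfl⟩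
          obtain ⟨γ, hγ⟩ : ∃ γ, γ = dt (-φ3) a / dt (-φ3) φ2 := ⟨_, rfl⟩
          rw [← hα, ← hγ] at dec
          have hα0 : 0 ≤ α := by rw [hα]; exact div_nonneg hw d.le
          have hγ0 : 0 ≤ γ := by rw [hγ]; exact div_nonneg hv.le d.le
          exact ⟨cap α γ hα0 hγ0 a dec p hp, SG α γ hα0 hγ0 a dec⟩
        · right; right
          have d0 : dt φ2 g3 = m3 * dt φ1 φ2 := by
            simp only [dt]; rw [g3a, g3b]; ring
          have d : 0 < dt φ2 g3 := by
            rw [d0]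
            rcases hm3.lt_or_eq with k | k
            · exact mul_pos k D12
            · exfalso
              have e : dt a g3 = l3 * dt a φ2 := by
                simp only [dt]; rw [g3a, g3b, ← k]; ring
              have := mul_nonneg hl3 (neg_nonneg.2 hw.le)
              rw [e] at ha2
              linarith
          have dec := decomp φ2 g3 a d.ne'
          obtain ⟨α, hα⟩ : ∃ α, α = dt a g3 / dt φ2 g3 := ⟨_, rfl⟩
          obtain ⟨γ, hγ⟩ : ∃ γ, γ = dt φ2 a / dt φ2 g3 := ⟨_, rfl⟩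
          rw [← hα, ← hγ] at dec
          have hα0 : 0 ≤ α := by rw [hα]; exact div_nonneg ha2.le d.le
          have hγ0 : 0 ≤ γ := by
            rw [hγ]; apply div_nonneg _ d.le
            have : dt φ2 a = -dt a φ2 := by simp only [dt]; ring
            rw [this]; linarith
          have e1 : pr a p = α * pr φ2 p + γ * pr g3 p := by
            rw [dec, pr_add_left, pr_smul_left, pr_smul_left]
          have e2 : a.1 = α * φ2.1 + γ * g3.1 := by rw [dec]; simp
          have e2' : a.2 = α * φ2.2 + γ * g3.2 := by rw [dec]; simp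
          have e3 := mul_le_mul_of_nonneg_left (wall3 p hp) hγ0
          have e4 := mul_le_mul_of_nonneg_left c2 hα0
          refine ⟨α, ?_, ?_⟩
          · have k1 := mul_nonneg hγ0 G3u.le
            rw [e2, e2']
            have k2 : α * (-A * φ2.1 - B * φ2.2) = α * (φ2.2 - 1) := by rw [v2]
            linarith
          · rw [e1, e2']
            have k2 : α * (s * (-A * φ2.1 - B * φ2.2)) = α * (s * (φ2.2 - 1)) := by rw [v2]
            linarith
    have h1s : 0 ≤ 1 - s := by linarith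
    have U1 : ∀ a, 0 < dt g2 a → 0 < dt a g3 → ∀ p ∈ P,
        pr a p ≤ s * h a + (1 - s) * (h a + h (-a)) := by
      intro a ha1 ha2 p hp
      rcases bnd a ha1 ha2 p hp with ⟨k1, k2⟩ | ⟨m, k1, k2⟩ | ⟨m, k1, k2⟩
      · have := mul_le_mul_of_nonneg_left k2 hs0
        linarith
      · have j1 := H2 a
        have j2 := mul_le_mul_of_nonneg_left j1 hs0
        have j3 : a.1 - (-A * a.1 - B * a.2) ≤ h a + h (-a) := by
          have := HE3 (-a)
          rw [neg_neg] at this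
          simp only [Prod.fst_neg, Prod.snd_neg] at this
          linarith
        have j4 := mul_le_mul_of_nonneg_left (le_trans k1 j3) h1s
        linarith
      · have j1 := H3 a
        have j2 := mul_le_mul_of_nonneg_left j1 hs0
        have j3 : a.2 - (-A * a.1 - B * a.2) ≤ h a + h (-a) := by
          have := HE2 a
          linarith
        have j4 := mul_le_mul_of_nonneg_left (le_trans k1 j3) h1s
        linarith
    have U2 : ∀ a, 0 < dt g2 a → 0 < dt a g3 → ∀ p ∈ P,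
        pr a p ≤ h a - (1 - s) * (-A * a.1 - B * a.2) := by
      intro a ha1 ha2 p hp
      rcases bnd a ha1 ha2 p hp with ⟨k1, k2⟩ | ⟨m, k1, k2⟩ | ⟨m, k1, k2⟩
      · linarith
      · have j1 := H2 a
        have j4 := mul_le_mul_of_nonneg_left k1 h1s
        linarith
      · have j1 := H3 a
        have j4 := mul_le_mul_of_nonneg_left k1 h1s
        linarith
    have L : ∀ a, ¬ (0 < dt g2 a ∧ 0 < dt a g3) → ∀ p ∈ P, pr a p ≤ s * h a := by
      intro a ha p hp
      have hd : dt g2 a ≤ 0 ∨ dt a g3 ≤ 0 := by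
        by_contra hcon
        push Not at hcon
        exact ha hcon
      have hlow := lower s g2 g3 a p G2pos G3pos GG (hP p hp).1 (hP p hp).2 (wall2 p hp)
        (wall3 p hp) hd
      rcases hlow with ⟨k1, k2, k3⟩ | k | k
      · exact le_trans k1 (mul_nonneg hs0 (ws a k2 k3))
      · exact le_trans k (mul_le_mul_of_nonneg_left (H2 a) hs0)
      · exact le_trans k (mul_le_mul_of_nonneg_left (H3 a) hs0)
    -- two core functionals, in general
    have two : ∀ a b c : ℝ × ℝ, a + b + c = 0 → (0 < dt g2 a ∧ 0 < dt a g3) →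
        (0 < dt g2 b ∧ 0 < dt b g3) → ∀ p ∈ P, ∀ q ∈ P, ∀ r ∈ P,
        pr a p + pr b q + pr c r ≤ h a + h b + h c := by
      intro a b c habc ha hb p hp q hq r hr
      have hce : c = -(a + b) := by
        have h1 : (a + b) + c = 0 := habc
        exact (neg_eq_of_add_eq_zero_right h1).symm
      have hcn : ¬ (0 < dt g2 c ∧ 0 < dt c g3) := by
        rintro ⟨k, _⟩
        have : dt g2 c = -(dt g2 a) - dt g2 b := by
          rw [hce]; simp only [dt, Prod.fst_neg, Prod.snd_neg, Prod.fst_add, Prod.snd_add]; ring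
        rw [this] at k
        linarith [ha.1, hb.1]
      rcases lt_trichotomy (dt a b) 0 with hab | hab | hab
      · have hce' : c = -(b + a) := by rw [hce, add_comm]
        have hba : 0 < dt b a := by
          have : dt b a = -dt a b := by simp only [dt]; ring
          rw [this]; linarith
        have := twoCore A B s hA hB hs0 hs1 h hadd hsmul H2 H3 HE2 HE3 ws Hc3 g2 g3 G2pos G3pos GG
          G2u G3u P hP q2 q3 gq dq gq' dq' hgq hdq hgq' hdq' Hq3 Hq2 wall2 wall3 wall2q wall3q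
          Ht2 Ht3 U1 U2 HD12 HD13 b a c hce' hb.1 hb.2 ha.1 ha.2 hba q hq p hp r hr
        linarith
      · obtain ⟨k, hk⟩ : ∃ k, k = dt g2 b / dt g2 a := ⟨_, rfl⟩
        have hk0 : 0 ≤ k := by rw [hk]; exact div_nonneg hb.1.le ha.1.le
        have hbk : b = k • a := by
          have dec := decomp g2 a b ha.1.ne'
          have : dt b a = 0 := by
            have : dt b a = -dt a b := by simp only [dt]; ring
            rw [this, hab, neg_zero]
          rw [this, zero_div, zero_smul, zero_add, ← hk] at dec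
          exact dec
        exact combine_par s h hsmul P (fun x => 0 < dt g2 x ∧ 0 < dt x g3)
          (fun a ha => U1 a ha.1 ha.2) L a b c habc k hk0 hbk ha hcn p hp q hq r hr
      · exact twoCore A B s hA hB hs0 hs1 h hadd hsmul H2 H3 HE2 HE3 ws Hc3 g2 g3 G2pos G3pos GG
          G2u G3u P hP q2 q3 gq dq gq' dq' hgq hdq hgq' hdq' Hq3 Hq2 wall2 wall3 wall2q wall3q
          Ht2 Ht3 U1 U2 HD12 HD13 a b c hce ha.1 ha.2 hb.1 hb.2 hab p hp q hq r hr
    have U1' : ∀ a, (0 < dt g2 a ∧ 0 < dt a g3) → ∀ p ∈ P,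
        pr a p ≤ s * h a + (1 - s) * (h a + h (-a)) := fun a ha => U1 a ha.1 ha.2
    by_cases ca : (0 < dt g2 a ∧ 0 < dt a g3) <;> by_cases cb : (0 < dt g2 b ∧ 0 < dt b g3)
    · exact two a b c habc ca cb p hp q hq r hr
    · by_cases cc : (0 < dt g2 c ∧ 0 < dt c g3)
      · have := two a c b (by rw [← habc]; abel) ca cc p hp r hr q hq
        linarith
      · exact combine s hs1 h hadd hsmul P (fun x => 0 < dt g2 x ∧ 0 < dt x g3) U1' L a b c habc
          cb cc p hp q hq r hr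
    · by_cases cc : (0 < dt g2 c ∧ 0 < dt c g3)
      · have := two b c a (by rw [← habc]; abel) cb cc q hq r hr p hp
        linarith
      · have := combine s hs1 h hadd hsmul P (fun x => 0 < dt g2 x ∧ 0 < dt x g3) U1' L b a c
          (by rw [← habc]; abel) ca cc q hq p hp r hr
        linarith
    · have := combine s hs1 h hadd hsmul P (fun x => 0 < dt g2 x ∧ 0 < dt x g3) U1' L c a b
        (by rw [← habc]; abel) ca cb r hr p hp q hq
      linarith

end H40Dol
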