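import Pool.Agent.H40.Brouwer2
import Pool.Agent.H40.Dol.Defs

/-!
M5 of MP_70580c_co: colourful KKM lemma in the plane (helper11).
-/

namespace H40Dol

open Set Metric

namespace M5

/-- bump function of a set: positive exactly on the open `ε`-neighbourhood -/
noncomputable def bump (ε : ℝ) (A : Set (ℝ × ℝ)) (z : ℝ × ℝ) : ℝ :=
  max 0 (ε - (infEDist z A ⊓ ENNReal.ofReal ε).toReal)

theorem bump_nonneg (ε : ℝ) (A : Set (ℝ × ℝ)) (z : ℝ × ℝ) : 0 ≤ bump ε A z := le_max_left _ _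

theorem bump_cont {ε : ℝ} (A : Set (ℝ × ℝ)) : Continuous (bump ε A) := by
  unfold bump
  refine continuous_const.max (continuous_const.sub ?_)
  rw [continuous_iff_continuousAt]
  intro z
  refine (ENNReal.tendsto_toReal ?_).comp ?_
  · exact ne_top_of_le_ne_top ENNReal.ofReal_ne_top inf_le_right
  · exact ((continuous_infEDist.inf continuous_const).continuousAt)

theorem bump_pos {ε : ℝ} (hε : 0 < ε) {A : Set (ℝ × ℝ)} {z : ℝ × ℝ} (h : 0 < bump ε A z) :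
    ∃ z' ∈ A, dist z z' < ε := by
  unfold bump at h
  rcases lt_max_iff.1 h with h | h
  · exact absurd h (lt_irrefl _)
  · have h1 : (infEDist z A ⊓ ENNReal.ofReal ε).toReal < ε := by linarith
    have h2 : infEDist z A < ENNReal.ofReal ε := by
      by_contra hcon
      push Not at hcon
      rw [inf_eq_right.2 hcon, ENNReal.toReal_ofReal hε.le] at h1
      exact lt_irrefl _ h1
    obtain ⟨z', hz', hd⟩ := infEDist_lt_iff.1 h2
    refine ⟨z', hz', ?_⟩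
    rw [edist_dist] at hd
    exact (ENNReal.ofReal_lt_ofReal_iff hε).1 hd

theorem bump_mem {ε : ℝ} {A : Set (ℝ × ℝ)} {z : ℝ × ℝ} (hε : 0 < ε) (h : z ∈ A) :
    bump ε A z = ε := by
  unfold bump
  rw [infEDist_zero_of_mem h]
  simp [hε.le]

/-- normalised weights -/
noncomputable def rho (ε : ℝ) (B : Fin 3 → Set (ℝ × ℝ)) (i : Fin 3) (z : ℝ × ℝ) : ℝ :=
  bump ε (B i) z / ∑ j, bump ε (B j) z

theorem sum_pos {ε : ℝ} (hε : 0 < ε) {B : Fin 3 → Set (ℝ × ℝ)} (hcov : ∀ z, ∃ i, z ∈ B i)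
    (z : ℝ × ℝ) : 0 < ∑ j, bump ε (B j) z := by
  obtain ⟨i, hi⟩ := hcov z
  have h1 : bump ε (B i) z ≤ ∑ j, bump ε (B j) z :=
    Finset.single_le_sum (f := fun j => bump ε (B j) z) (fun j _ => bump_nonneg _ _ _)
      (Finset.mem_univ i)
  rw [bump_mem hε hi] at h1
  linarith

theorem rho_cont {ε : ℝ} (hε : 0 < ε) {B : Fin 3 → Set (ℝ × ℝ)} (hcov : ∀ z, ∃ i, z ∈ B i)
    (i : Fin 3) : Continuous (rho ε B i) := by
  unfold rho
  refine (bump_cont (B i)).div (continuous_finsetSum _ fun j _ => bump_cont (B j)) fun z => ?_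
  exact (sum_pos hε hcov z).ne'

theorem rho_nonneg {ε : ℝ} {B : Fin 3 → Set (ℝ × ℝ)} (i : Fin 3) (z : ℝ × ℝ) : 0 ≤ rho ε B i z :=
  div_nonneg (bump_nonneg _ _ _) (Finset.sum_nonneg fun _ _ => bump_nonneg _ _ _)

theorem rho_sum {ε : ℝ} (hε : 0 < ε) {B : Fin 3 → Set (ℝ × ℝ)} (hcov : ∀ z, ∃ i, z ∈ B i)
    (z : ℝ × ℝ) : ∑ i, rho ε B i z = 1 := by
  unfold rho
  rw [← Finset.sum_div, div_self (sum_pos hε hcov z).ne']

theorem rho_pos {ε : ℝ} (hε : 0 < ε) {B : Fin 3 → Set (ℝ × ℝ)} {i : Fin 3} {z : ℝ × ℝ}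
    (h : 0 < rho ε B i z) : ∃ z' ∈ B i, dist z z' < ε := by
  apply bump_pos hε
  rcases (bump_nonneg ε (B i) z).lt_or_eq with h1 | h1
  · exact h1
  · unfold rho at h
    rw [← h1, zero_div] at h
    exact absurd h (lt_irrefl _)

/-- the average weights -/
noncomputable def RR (ε : ℝ) (A : Fin 3 → Fin 3 → Set (ℝ × ℝ)) (i : Fin 3) (z : ℝ × ℝ) : ℝ :=
  ∑ m, rho ε (A m) i z

theorem RR_sum {ε : ℝ} (hε : 0 < ε) {A : Fin 3 → Fin 3 → Set (ℝ × ℝ)}
    (hcov : ∀ m z, ∃ i, z ∈ A m i) (z : ℝ × ℝ) : RR ε A 0 z + RR ε A 1 z + RR ε A 2 z = 3 := by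
  have h : ∑ i, RR ε A i z = 3 := by
    unfold RR
    rw [Finset.sum_comm, Finset.sum_congr rfl fun m _ => rho_sum hε (hcov m) z]
    simp
  rw [Fin.sum_univ_three] at h
  exact h

theorem RR_nonneg {ε : ℝ} {A : Fin 3 → Fin 3 → Set (ℝ × ℝ)} (i : Fin 3) (z : ℝ × ℝ) :
    0 ≤ RR ε A i z := Finset.sum_nonneg fun _ _ => rho_nonneg _ _

theorem RR_pos {ε : ℝ} (hε : 0 < ε) {A : Fin 3 → Fin 3 → Set (ℝ × ℝ)} {i : Fin 3} {z : ℝ × ℝ}
    (h : 0 < RR ε A i z) : ∃ m, ∃ z' ∈ A m i, dist z z' < ε := by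
  unfold RR at h
  obtain ⟨m, _, hm⟩ := Finset.exists_lt_of_sum_lt (s := Finset.univ) (f := fun _ : Fin 3 => (0 : ℝ))
    (g := fun m => rho ε (A m) i z) (by simpa using h)
  exact ⟨m, rho_pos hε hm⟩

/-- a doubly stochastic matrix has a positive permutation -/
theorem exists_perm (W : Matrix (Fin 3) (Fin 3) ℝ) (hW : W ∈ doublyStochastic ℝ (Fin 3)) :
    ∃ π : Equiv.Perm (Fin 3), ∀ i, 0 < W (π i) i := by
  obtain ⟨w, hw0, hw1, hw⟩ := exists_eq_sum_perm_of_mem_doublyStochastic hW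
  obtain ⟨σ, hσ⟩ : ∃ σ, 0 < w σ := by
    by_contra hcon
    push Not at hcon
    have : ∑ σ, w σ ≤ 0 := Finset.sum_nonpos fun σ _ => hcon σ
    linarith
  refine ⟨σ⁻¹, fun i => ?_⟩
  have h1 : W (σ⁻¹ i) i = ∑ τ, w τ * (τ.permMatrix ℝ) (σ⁻¹ i) i := by
    rw [← hw, Matrix.sum_apply]
    rfl
  have h2 : w σ * (σ.permMatrix ℝ) (σ⁻¹ i) i ≤ ∑ τ, w τ * (τ.permMatrix ℝ) (σ⁻¹ i) i := by
    refine Finset.single_le_sum (f := fun τ => w τ * (τ.permMatrix ℝ) (σ⁻¹ i) i) (fun τ _ => ?_)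
      (Finset.mem_univ σ)
    apply mul_nonneg (hw0 τ)
    rw [Equiv.Perm.permMatrix, PEquiv.toMatrix_apply]
    split_ifs <;> norm_num
  have h3 : (σ.permMatrix ℝ) (σ⁻¹ i) i = 1 := by
    rw [Equiv.Perm.permMatrix, PEquiv.toMatrix_apply, if_pos]
    simp [Equiv.toPEquiv_apply]
  rw [h3, mul_one] at h2
  rw [h1]
  linarith

theorem main {A : Fin 3 → Fin 3 → Set (ℝ × ℝ)}
    (hcov : ∀ m z, ∃ i, z ∈ A m i) (M : ℝ)
    (h0 : ∀ m z, M ≤ ‖z‖ → z ∈ A m 0 → 1 ≤ 2 * z.1 - z.2)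
    (h1 : ∀ m z, M ≤ ‖z‖ → z ∈ A m 1 → 1 ≤ 2 * z.2 - z.1)
    (h2 : ∀ m z, M ≤ ‖z‖ → z ∈ A m 2 → 1 ≤ -z.1 - z.2) {ε : ℝ} (hε : 0 < ε) (hε1 : ε < 1 / 3) :
    ∃ π : Equiv.Perm (Fin 3), ∃ z : ℝ × ℝ, ‖z‖ ≤ 2 * (|M| + 1) ∧
      ∀ i, ∃ z' ∈ A (π i) i, dist z z' < ε := by
  have hR : 0 < 2 * (|M| + 1) := by positivity
  obtain ⟨z, hz, hz0, hz1⟩ : ∃ z : ℂ, ‖z‖ ≤ 2 * (|M| + 1) ∧ RR ε A 0 (z.re, z.im) = 1 ∧
      RR ε A 1 (z.re, z.im) = 1 := by
    by_contra hno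
    push Not at hno
    have hRc : ∀ i, Continuous fun z : ℂ => RR ε A i (z.re, z.im) := by
      intro i
      unfold RR
      refine continuous_finsetSum _ fun m _ => ?_
      exact (rho_cont hε (hcov m) i).comp (Complex.continuous_re.prodMk Complex.continuous_im)
    obtain ⟨G, hG⟩ : ∃ G : ℂ → ℂ, G = fun z => ((RR ε A 0 (z.re, z.im) - 1 : ℝ) : ℂ) +
      ((RR ε A 1 (z.re, z.im) - 1 : ℝ) : ℂ) * Complex.I := ⟨_, rfl⟩
    have hGc : Continuous G := by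
      rw [hG]
      exact (Complex.continuous_ofReal.comp ((hRc 0).sub continuous_const)).add
        ((Complex.continuous_ofReal.comp ((hRc 1).sub continuous_const)).mul continuous_const)
    have hGre : ∀ z, (G z).re = RR ε A 0 (z.re, z.im) - 1 := by
      intro z
      rw [hG]
      simp
    have hGim : ∀ z, (G z).im = RR ε A 1 (z.re, z.im) - 1 := by
      intro z
      rw [hG]
      simp
    have hG0 : ∀ z, ‖z‖ ≤ 2 * (|M| + 1) → G z ≠ 0 := by
      intro z hz h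
      have e1 := hGre z
      have e2 := hGim z
      rw [h] at e1 e2
      simp only [Complex.zero_re, Complex.zero_im] at e1 e2
      exact hno z hz (by linarith) (by linarith)
    obtain ⟨z, hz, hfz⟩ := H40Brouwer.brouwer_complex (2 * (|M| + 1)) hR
      (fun z => -(((2 * (|M| + 1) / ‖G z‖ : ℝ) : ℂ) * G z)) (by
        refine ContinuousOn.neg (ContinuousOn.mul ?_ hGc.continuousOn)
        refine Complex.continuous_ofReal.comp_continuousOn ?_
        refine ContinuousOn.div continuousOn_const hGc.norm.continuousOn ?_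
        intro z hz
        rw [mem_closedBall_zero_iff] at hz
        exact norm_ne_zero_iff.2 (hG0 z hz)) (by
        intro z hz
        have := norm_ne_zero_iff.2 (hG0 z hz)
        rw [norm_neg, norm_mul, Complex.norm_real, Real.norm_eq_abs, abs_of_nonneg (by positivity),
          div_mul_cancel₀ _ this])
    have hGz := norm_ne_zero_iff.2 (hG0 z hz)
    have hGp : 0 < ‖G z‖ := norm_pos_iff.2 (hG0 z hz)
    have hnz : ‖z‖ = 2 * (|M| + 1) := by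
      rw [← hfz, norm_neg, norm_mul, Complex.norm_real, Real.norm_eq_abs,
        abs_of_nonneg (by positivity), div_mul_cancel₀ _ hGz]
    have ere : z.re = -(2 * (|M| + 1) / ‖G z‖ * (RR ε A 0 (z.re, z.im) - 1)) := by
      have := congrArg Complex.re hfz
      rw [Complex.neg_re, Complex.re_ofReal_mul, hGre] at this
      exact this.symm
    have eim : z.im = -(2 * (|M| + 1) / ‖G z‖ * (RR ε A 1 (z.re, z.im) - 1)) := by
      have := congrArg Complex.im hfz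
      rw [Complex.neg_im, Complex.im_ofReal_mul, hGim] at this
      exact this.symm
    -- large norm
    have hsup : |M| + 1 ≤ ‖((z.re, z.im) : ℝ × ℝ)‖ := by
      have h3 := Complex.norm_le_abs_re_add_abs_im z
      have h4 : |z.re| ≤ ‖((z.re, z.im) : ℝ × ℝ)‖ := norm_fst_le ((z.re, z.im) : ℝ × ℝ)
      have h5 : |z.im| ≤ ‖((z.re, z.im) : ℝ × ℝ)‖ := norm_snd_le ((z.re, z.im) : ℝ × ℝ)
      linarith
    have hnear : ∀ z' : ℝ × ℝ, dist ((z.re, z.im) : ℝ × ℝ) z' < ε →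
        M ≤ ‖z'‖ ∧ |z.re - z'.1| < ε ∧ |z.im - z'.2| < ε := by
      intro z' hz'
      rw [dist_eq_norm] at hz'
      refine ⟨?_, ?_, ?_⟩
      · have h3 := norm_sub_norm_le ((z.re, z.im) : ℝ × ℝ) z'
        have h4 := le_abs_self M
        linarith
      · exact lt_of_le_of_lt (norm_fst_le (((z.re, z.im) : ℝ × ℝ) - z')) hz'
      · exact lt_of_le_of_lt (norm_snd_le (((z.re, z.im) : ℝ × ℝ) - z')) hz'
    have l0 : 0 < RR ε A 0 (z.re, z.im) → 0 < 2 * z.re - z.im := by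
      intro h
      obtain ⟨m, z', hz', hd⟩ := RR_pos hε h
      obtain ⟨k1, k2, k3⟩ := hnear z' hd
      have := h0 m z' k1 hz'
      rw [abs_lt] at k2 k3
      linarith [k2.1, k3.2]
    have l1 : 0 < RR ε A 1 (z.re, z.im) → 0 < 2 * z.im - z.re := by
      intro h
      obtain ⟨m, z', hz', hd⟩ := RR_pos hε h
      obtain ⟨k1, k2, k3⟩ := hnear z' hd
      have := h1 m z' k1 hz'
      rw [abs_lt] at k2 k3
      linarith [k2.2, k3.1]
    have l2 : 0 < RR ε A 2 (z.re, z.im) → 0 < -z.re - z.im := by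
      intro h
      obtain ⟨m, z', hz', hd⟩ := RR_pos hε h
      obtain ⟨k1, k2, k3⟩ := hnear z' hd
      have := h2 m z' k1 hz'
      rw [abs_lt] at k2 k3
      linarith [k2.2, k3.2]
    have hs := RR_sum hε hcov (z.re, z.im)
    have n0 := RR_nonneg (ε := ε) (A := A) 0 (z.re, z.im)
    have n1 := RR_nonneg (ε := ε) (A := A) 1 (z.re, z.im)
    have n2 := RR_nonneg (ε := ε) (A := A) 2 (z.re, z.im)
    obtain ⟨x, hx⟩ : ∃ x, x = z.re := ⟨_, rfl⟩
    obtain ⟨y, hy⟩ : ∃ y, y = z.im := ⟨_, rfl⟩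
    obtain ⟨r0, hr0⟩ : ∃ r, r = RR ε A 0 (z.re, z.im) := ⟨_, rfl⟩
    obtain ⟨r1, hr1⟩ : ∃ r, r = RR ε A 1 (z.re, z.im) := ⟨_, rfl⟩
    obtain ⟨r2, hr2⟩ : ∃ r, r = RR ε A 2 (z.re, z.im) := ⟨_, rfl⟩
    rw [← hr0] at l0 hs n0 ere
    rw [← hr1] at l1 hs n1 eim
    rw [← hr2] at l2 hs n2
    rw [← hx, ← hy] at l0 l1 l2
    rw [← hx] at ere
    rw [← hy] at eim
    obtain ⟨q, hq⟩ : ∃ q, q = 2 * (|M| + 1) / ‖G z‖ := ⟨_, rfl⟩
    have hq0 : 0 < q := by rw [hq]; positivity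
    rw [← hq] at ere eim
    have p0 : 0 ≤ r0 * (2 * x - y) := by
      rcases n0.lt_or_eq with h | h
      · exact mul_nonneg n0 (l0 h).le
      · rw [← h, zero_mul]
    have p1 : 0 ≤ r1 * (2 * y - x) := by
      rcases n1.lt_or_eq with h | h
      · exact mul_nonneg n1 (l1 h).le
      · rw [← h, zero_mul]
    have p2 : 0 ≤ r2 * (-x - y) := by
      rcases n2.lt_or_eq with h | h
      · exact mul_nonneg n2 (l2 h).le
      · rw [← h, zero_mul]
    have p3 : 0 < r0 * (2 * x - y) + r1 * (2 * y - x) + r2 * (-x - y) := by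
      rcases n0.lt_or_eq with h | h
      · have := mul_pos h (l0 h)
        linarith
      rcases n1.lt_or_eq with h' | h'
      · have := mul_pos h' (l1 h')
        linarith
      · have h'' : 0 < r2 := by linarith
        have := mul_pos h'' (l2 h'')
        linarith
    have p4 : r0 * (2 * x - y) + r1 * (2 * y - x) + r2 * (-x - y) =
        3 * ((r0 - 1) * x + (r1 - 1) * y) := by
      have : r2 = 3 - r0 - r1 := by linarith
      rw [this]
      ring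
    have p5 : (r0 - 1) * x + (r1 - 1) * y = -(q * ((r0 - 1) ^ 2 + (r1 - 1) ^ 2)) := by
      rw [ere, eim]
      ring
    have p6 : 0 ≤ q * ((r0 - 1) ^ 2 + (r1 - 1) ^ 2) := by positivity
    linarith
  have hz2 : RR ε A 2 (z.re, z.im) = 1 := by
    have := RR_sum hε hcov (z.re, z.im)
    linarith
  obtain ⟨π, hπ⟩ := exists_perm (Matrix.of fun m i => rho ε (A m) i (z.re, z.im)) (by
    refine mem_doublyStochastic_iff_sum.2
      ⟨fun m i => rho_nonneg _ _, fun m => rho_sum hε (hcov m) _, fun i => ?_⟩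
    fin_cases i
    · exact hz0
    · exact hz1
    · exact hz2)
  refine ⟨π, (z.re, z.im), ?_, fun i => rho_pos hε (hπ i)⟩
  refine le_trans ?_ hz
  rw [Prod.norm_def]
  exact max_le (Complex.abs_re_le_norm z) (Complex.abs_im_le_norm z)

end M5

/-- M5: colourful KKM lemma in the plane. -/
theorem kkm (A : Fin 3 → Fin 3 → Set (ℝ × ℝ)) (hcl : ∀ m i, IsClosed (A m i))
    (hcov : ∀ m z, ∃ i, z ∈ A m i) (M : ℝ)
    (h0 : ∀ m z, M ≤ ‖z‖ → z ∈ A m 0 → 1 ≤ 2 * z.1 - z.2)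
    (h1 : ∀ m z, M ≤ ‖z‖ → z ∈ A m 1 → 1 ≤ 2 * z.2 - z.1)
    (h2 : ∀ m z, M ≤ ‖z‖ → z ∈ A m 2 → 1 ≤ -z.1 - z.2) :
    ∃ π : Equiv.Perm (Fin 3), ∃ z, ∀ i, z ∈ A (π i) i := by
  by_contra hno
  push Not at hno
  have hδ : ∀ π : Equiv.Perm (Fin 3), ∃ δ > 0, ∀ x ∈ closedBall (0 : ℝ × ℝ) (2 * (|M| + 1)),
      ∃ i, ball x δ ⊆ (A (π i) i)ᶜ := by
    intro π
    refine lebesgue_number_lemma_of_metric (isCompact_closedBall _ _)
      (fun i => (hcl (π i) i).isOpen_compl) ?_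
    intro x _
    obtain ⟨i, hi⟩ := hno π x
    exact mem_iUnion.2 ⟨i, hi⟩
  choose δ hδ0 hδ using hδ
  obtain ⟨π0, hπ0⟩ := Finite.exists_min δ
  obtain ⟨ε, hε⟩ : ∃ ε, ε = min (δ π0) (1 / 6) := ⟨_, rfl⟩
  have hε0 : 0 < ε := by
    rw [hε]
    exact lt_min (hδ0 π0) (by norm_num)
  have hε1 : ε < 1 / 3 := by
    have := min_le_right (δ π0) (1 / 6)
    rw [hε]
    linarith
  obtain ⟨π, z, hz, hπ⟩ := M5.main hcov M h0 h1 h2 hε0 hε1
  obtain ⟨i, hi⟩ := hδ π z (mem_closedBall_zero_iff.2 hz)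
  obtain ⟨z', hz', hd⟩ := hπ i
  have h3 : z' ∈ ball z (δ π) := by
    rw [mem_ball, dist_comm]
    refine lt_of_lt_of_le hd ?_
    rw [hε]
    exact (min_le_left _ _).trans (hπ0 π)
  exact hi h3 hz'

end H40Dol
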