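import Pool.Agent.H40.Dol.HS
import Pool.Agent.H40.Dol.M6
import Pool.Agent.H40.Dol.M1

/-!
Module M7a: the core lemma for a configuration and an index, by a linear change of coordinates.
-/

namespace H40Dol

open Pointwise

theorem hs_pair (K : Set (ℝ × ℝ)) (hne : K.Nonempty) (hK : IsCompact K) {x : ℝ × ℝ}
    (hx : x ∈ K - K) (a : ℝ × ℝ) : pr a x ≤ hs K a + hs K (-a) := by
  obtain ⟨y, hy, z, hz, rfl⟩ := Set.mem_sub.1 hx
  have h1 := (hs_facts K hne hK).1
  have e : pr a (y - z) = pr a y + pr (-a) z := by rw [pr_sub_right, pr_neg_left]; ring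
  rw [e]
  exact add_le_add (h1 a y hy) (h1 (-a) z hz)

theorem fin3_a : ∀ i : Fin 3, i + 1 + 1 = i + 2 := by decide
theorem fin3_b : ∀ i : Fin 3, i + 1 + 2 = i := by decide
theorem fin3_c : ∀ i : Fin 3, i + 2 + 1 = i := by decide
theorem fin3_d : ∀ i : Fin 3, i + 2 + 2 = i + 1 := by decide
theorem fin3_ne1 : ∀ i : Fin 3, i ≠ i + 1 := by decide
theorem fin3_ne2 : ∀ i : Fin 3, i ≠ i + 2 := by decide
theorem fin3_ne3 : ∀ i : Fin 3, i + 1 ≠ i + 2 := by decide
theorem fin3_ne4 : ∀ i : Fin 3, i + 1 ≠ i := by decide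
theorem fin3_ne5 : ∀ i : Fin 3, i + 2 ≠ i := by decide
theorem fin3_ne6 : ∀ i : Fin 3, i + 2 ≠ i + 1 := by decide

/-- cyclic versions of the facts on the apex -/
theorem Config.ocomb' {K : Set (ℝ × ℝ)} (C : Config K) (i : Fin 3) :
    C.o i • C.u i + C.o (i + 1) • C.u (i + 1) + C.o (i + 2) • C.u (i + 2) = 0 := by
  have h := C.ocomb
  fin_cases i
  · simpa using h
  · have : C.o 1 • C.u 1 + C.o 2 • C.u 2 + C.o 0 • C.u 0 = 0 := by rw [← h]; abel
    simpa using this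
  · have : C.o 2 • C.u 2 + C.o 0 • C.u 0 + C.o 1 • C.u 1 = 0 := by rw [← h]; abel
    simpa using this

/-- the coordinates of functionals -/
def co (u v : ℝ × ℝ) (a : ℝ × ℝ) : ℝ × ℝ := (pr a u, pr a v)

/-- the functional with given values on `u` and `v` -/
noncomputable def fu (u v : ℝ × ℝ) (a : ℝ × ℝ) : ℝ × ℝ :=
  ((a.1 * v.2 - a.2 * u.2) / dt u v, (a.2 * u.1 - a.1 * v.1) / dt u v)

/-- the point with given coordinates -/
def pt (u v : ℝ × ℝ) (x : ℝ × ℝ) : ℝ × ℝ := x.1 • u + x.2 • v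

section
variable {u v : ℝ × ℝ}

theorem pr_pt (a x : ℝ × ℝ) : pr a (pt u v x) = pr (co u v a) x := by
  simp only [pt, co, pr_add_right, pr_smul_right]
  simp only [pr]; ring

theorem pr_fu_u (h : dt u v ≠ 0) (a : ℝ × ℝ) : pr (fu u v a) u = a.1 := by
  have e : pr (fu u v a) u = a.1 * (dt u v / dt u v) := by simp only [fu, pr, dt]; ring
  rw [e, div_self h, mul_one]

theorem pr_fu_v (h : dt u v ≠ 0) (a : ℝ × ℝ) : pr (fu u v a) v = a.2 := by
  have e : pr (fu u v a) v = a.2 * (dt u v / dt u v) := by simp only [fu, pr, dt]; ring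
  rw [e, div_self h, mul_one]

theorem co_fu (h : dt u v ≠ 0) (a : ℝ × ℝ) : co u v (fu u v a) = a := by
  simp only [co, pr_fu_u h, pr_fu_v h]

theorem fu_co (h : dt u v ≠ 0) (a : ℝ × ℝ) : fu u v (co u v a) = a := by
  have e1 : (fu u v (co u v a)).1 = a.1 * (dt u v / dt u v) := by
    simp only [fu, co, pr, dt]; ring
  have e2 : (fu u v (co u v a)).2 = a.2 * (dt u v / dt u v) := by
    simp only [fu, co, pr, dt]; ring
  rw [div_self h, mul_one] at e1 e2
  exact Prod.ext e1 e2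

theorem fu_add (a b : ℝ × ℝ) : fu u v (a + b) = fu u v a + fu u v b := by
  simp only [fu, Prod.fst_add, Prod.snd_add, Prod.mk_add_mk]
  ext <;> · simp only; ring

theorem fu_smul (t : ℝ) (a : ℝ × ℝ) : fu u v (t • a) = t • fu u v a := by
  simp only [fu, Prod.smul_fst, Prod.smul_snd, Prod.smul_mk, smul_eq_mul]
  ext <;> · simp only; ring

theorem fu_neg (a : ℝ × ℝ) : fu u v (-a) = -fu u v a := by
  simp only [fu, Prod.fst_neg, Prod.snd_neg, Prod.neg_mk]
  ext <;> · simp only; ring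

theorem co_add (a b : ℝ × ℝ) : co u v (a + b) = co u v a + co u v b := by
  simp only [co, pr_add_left, Prod.mk_add_mk]

theorem co_smul (t : ℝ) (a : ℝ × ℝ) : co u v (t • a) = t • co u v a := by
  simp only [co, pr_smul_left, Prod.smul_mk, smul_eq_mul]

theorem co_neg (a : ℝ × ℝ) : co u v (-a) = -co u v a := by
  simp only [co, pr_neg_left, Prod.neg_mk]

theorem pr_fu_pt (h : dt u v ≠ 0) (a x : ℝ × ℝ) : pr (fu u v a) (pt u v x) = pr a x := by
  rw [pr_pt, co_fu h]

theorem pt_sub (x y : ℝ × ℝ) : pt u v (x - y) = pt u v x - pt u v y := by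
  simp only [pt, Prod.fst_sub, Prod.snd_sub, sub_smul]; abel

theorem pt_add (x y : ℝ × ℝ) : pt u v (x + y) = pt u v x + pt u v y := by
  simp only [pt, Prod.fst_add, Prod.snd_add, add_smul]; abel

theorem pt_smul (t : ℝ) (x : ℝ × ℝ) : pt u v (t • x) = t • pt u v x := by
  simp only [pt, Prod.smul_fst, Prod.smul_snd, smul_eq_mul, smul_add, mul_smul]

end

/-- M7a: the core lemma for a configuration and an index `i` (from HS, M1 and M6). -/
theorem mgen (K : Set (ℝ × ℝ)) (hne : K.Nonempty) (hK : IsCompact K) (hc : Convex ℝ K)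
    (C : Config K) (i : Fin 3) (s : ℝ) (P : Set (ℝ × ℝ)) (hPf : P.Finite) (q q' f f' : ℝ × ℝ)
    (hP : P ⊆ C.S i) (hq : q ∈ C.S (i + 1)) (hq' : q' ∈ C.S (i + 2))
    (hcap : ∀ p ∈ P, ∀ l m : ℝ, 0 ≤ l → 0 ≤ m →
      pr (-(l • C.φ (i + 2)) + m • C.φ (i + 1)) p ≤
        hs K (-(l • C.φ (i + 2)) + m • C.φ (i + 1)) + hs K (-(-(l • C.φ (i + 2)) + m • C.φ (i + 1)))
        + s * pr (-(l • C.φ (i + 2)) + m • C.φ (i + 1)) (C.u i))
    (hf : f ≠ 0) (hf' : f' ≠ 0)
    (hfE : ∃ l m : ℝ, 0 ≤ l ∧ 0 ≤ m ∧ f = -(l • C.φ i) + m • C.φ (i + 2))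
    (hfE' : ∃ l m : ℝ, 0 ≤ l ∧ 0 ≤ m ∧ f' = -(l • C.φ (i + 1)) + m • C.φ i)
    (ht : hs K f + hs K (-f) + s * pr f (C.u (i + 1)) ≤ pr f q)
    (ht' : hs K f' + hs K (-f') + s * pr f' (C.u (i + 2)) ≤ pr f' q')
    (hD12 : ∀ p ∈ P, p - q ∈ K - K) (hD13 : ∀ p ∈ P, p - q' ∈ K - K) (hD23 : q - q' ∈ K - K) :
    Cov K P := by
  obtain ⟨hs1, hs2, hs3, hs4, -⟩ := hs_facts K hne hK
  by_contra hn
  obtain ⟨a, b, c, habc, p, hp, r, hr, w, hw, hlt⟩ := not_cov K hne hK hc P hPf hn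
  have hd : dt (C.u (i + 1)) (C.u (i + 2)) ≠ 0 := (C.orient i).ne'
  set U := C.u (i + 1) with hU
  set V := C.u (i + 2) with hV
  have ho := C.opos i
  have ho1 := C.opos (i + 1)
  have ho2 := C.opos (i + 2)
  set A := C.o (i + 1) / C.o i with hA
  set B := C.o (i + 2) / C.o i with hB
  have hApos : 0 < A := div_pos ho1 ho
  have hBpos : 0 < B := div_pos ho2 ho
  have hui : C.u i = pt U V (-A, -B) := by
    have h := C.ocomb' i
    have e : C.o i • (C.u i - pt U V (-A, -B)) = 0 := by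
      rw [← h]
      simp only [pt, hA, hB, smul_sub, smul_add, smul_smul, neg_smul, smul_neg,
        mul_div_cancel₀ _ ho.ne']
      abel
    rcases smul_eq_zero.1 e with h0 | h0
    · exact absurd h0 ho.ne'
    · exact sub_eq_zero.1 h0
  have hu1 : U = pt U V (1, 0) := by simp [pt]
  have hu2 : V = pt U V (0, 1) := by simp [pt]
  have E1 : U - V = pt U V (1, -1) := by simp only [pt]; module
  have E2 : V - C.u i = pt U V (A, 1 + B) := by rw [hui]; simp only [pt]; module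
  have E3 : C.u i - U = pt U V (-(1 + A), -B) := by rw [hui]; simp only [pt]; module
  -- the support function in the new coordinates
  set h : ℝ × ℝ → ℝ := fun x => hs K (fu U V x) + pr (fu U V x) (C.t i) with hh
  have hD : ∀ x, h x + h (-x) = hs K (fu U V x) + hs K (-(fu U V x)) := by
    intro x; simp only [hh, fu_neg, pr_neg_left]; ring
  have hco : ∀ x, h (co U V x) = hs K x + pr x (C.t i) := by
    intro x; simp only [hh, fu_co hd]
  have hDco : ∀ x, h (co U V x) + h (-(co U V x)) = hs K x + hs K (-x) := by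
    intro x; rw [hD, fu_co hd]
  -- differences of vertices
  have hmemD : ∀ j k l : Fin 3, j ≠ k → j ≠ l → C.u k - C.u l ∈ K - K := by
    intro j k l hk hl
    refine Set.mem_sub.2 ⟨C.u k - C.t j, C.mem j k hk, C.u l - C.t j, C.mem j l hl, ?_⟩
    abel
  have hPx : ∀ x ∈ P, ∃ y : ℝ × ℝ, 0 ≤ y.1 ∧ 0 ≤ y.2 ∧ x = pt U V y := by
    intro x hx
    obtain ⟨β, γ, hβ, hγ, rfl⟩ := hP hx
    exact ⟨(β, γ), hβ, hγ, rfl⟩
  obtain ⟨b2, g2, hb2, hg2, hqe⟩ := hq
  obtain ⟨b3, g3, hb3, hg3, hqe'⟩ := hq'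
  rw [fin3_a, fin3_b] at hqe
  rw [fin3_c, fin3_d] at hqe'
  have hq2 : q = pt U V (b2 • ((0 : ℝ), (1 : ℝ)) + g2 • (-A, -B)) := by
    rw [hqe, pt_add, pt_smul, pt_smul, ← hu2, ← hui]
  have hq3 : q' = pt U V (b3 • (-A, -B) + g3 • ((1 : ℝ), (0 : ℝ))) := by
    rw [hqe', pt_add, pt_smul, pt_smul, ← hu1, ← hui]
  obtain ⟨l2, m2, hl2, hm2, hfe⟩ := hfE
  obtain ⟨l3, m3, hl3, hm3, hfe'⟩ := hfE'
  have key := H40Dol.mcore A B hApos hBpos h
    (by intro x y; simp only [hh, fu_add, pr_add_left]; linarith [hs3 (fu U V x) (fu U V y)])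
    (by intro t ht0 x; simp only [hh, fu_smul, pr_smul_left, hs4 t ht0]; ring)
    (by
      intro x
      have := hs1 (fu U V x) _ (C.mem i (i + 1) (fin3_ne1 i))
      rw [pr_sub_right, ← hU, pr_fu_u hd] at this
      simp only [hh, pr]
      simp only [pr] at this
      linarith)
    (by
      intro x
      have := hs1 (fu U V x) _ (C.mem i (i + 2) (fin3_ne2 i))
      rw [pr_sub_right, ← hV, pr_fu_v hd] at this
      simp only [hh, pr]
      simp only [pr] at this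
      linarith)
    (by
      intro x
      rw [hD]
      have h1 := hs_pair K hne hK (hmemD (i + 1) (i + 2) i (fin3_ne3 i) (fin3_ne4 i)) (fu U V x)
      rw [← hV, E2, pr_fu_pt hd] at h1
      exact h1)
    (by
      intro x
      rw [hD]
      have h1 := hs_pair K hne hK (hmemD (i + 2) i (i + 1) (fin3_ne5 i) (fin3_ne6 i)) (fu U V x)
      rw [← hU, E3, pr_fu_pt hd] at h1
      exact h1)
    (co U V (C.φ i)) (co U V (C.φ (i + 1))) (co U V (C.φ (i + 2)))
    (by
      rw [← pr_pt]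
      have := C.phi_one i
      rwa [← hU, ← hV, E1] at this)
    (by
      rw [← pr_pt]
      have := C.phi_one (i + 1)
      rw [fin3_a, fin3_b] at this
      rwa [← hV, E2] at this)
    (by
      rw [← pr_pt]
      have := C.phi_one (i + 2)
      rw [fin3_c, fin3_d] at this
      rwa [← hU, E3] at this)
    (by rw [hDco]; exact C.phi_sup i)
    (by rw [hDco]; exact C.phi_sup (i + 1))
    (by rw [hDco]; exact C.phi_sup (i + 2))
    (by
      rw [← pr_pt]
      have := C.phi_neg i (i + 1) (fin3_ne1 i)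
      rw [fin3_a, fin3_b] at this
      rwa [← hV, E2] at this)
    (by
      rw [← pr_pt]
      have := C.phi_neg i (i + 2) (fin3_ne2 i)
      rw [fin3_c, fin3_d] at this
      rwa [← hU, E3] at this)
    (by
      rw [← pr_pt]
      have := C.phi_neg (i + 1) i (fin3_ne4 i)
      rwa [← hU, ← hV, E1] at this)
    (by
      rw [← pr_pt]
      have := C.phi_neg (i + 1) (i + 2) (fin3_ne3 i)
      rw [fin3_c, fin3_d] at this
      rwa [← hU, E3] at this)
    (by
      rw [← pr_pt]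
      have := C.phi_neg (i + 2) i (fin3_ne5 i)
      rwa [← hU, ← hV, E1] at this)
    (by
      rw [← pr_pt]
      have := C.phi_neg (i + 2) (i + 1) (fin3_ne6 i)
      rw [fin3_a, fin3_b] at this
      rwa [← hV, E2] at this)
    (by
      intro x hx1 hx2 s' hs0 hs1'
      have h3 := C.c3 i (fu U V x) s' hs0 hs1'
      rw [← hU, ← hV, pr_fu_u hd, pr_fu_v hd, hui, pr_fu_pt hd] at h3
      exact h3 hx1 hx2)
    s {x | pt U V x ∈ P}
    (b2 • ((0 : ℝ), (1 : ℝ)) + g2 • (-A, -B)) (b3 • (-A, -B) + g3 • ((1 : ℝ), (0 : ℝ)))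
    (co U V f) (co U V f')
    (by
      intro x hx
      obtain ⟨y, hy1, hy2, hxy⟩ := hPx _ hx
      have e1 : pr (fu U V (1, 0)) (pt U V x) = pr (fu U V (1, 0)) (pt U V y) := by rw [hxy]
      have e2 : pr (fu U V (0, 1)) (pt U V x) = pr (fu U V (0, 1)) (pt U V y) := by rw [hxy]
      rw [pr_fu_pt hd, pr_fu_pt hd] at e1 e2
      simp only [pr, one_mul, zero_mul, add_zero, zero_add] at e1 e2
      rw [e1, e2]
      exact ⟨hy1, hy2⟩)
    ⟨b2, g2, hb2, hg2, rfl⟩ ⟨b3, g3, hb3, hg3, rfl⟩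
    (by
      intro x hx l m hl hm
      have h1 := hcap _ hx l m hl hm
      have e : -(l • co U V (C.φ (i + 2))) + m • co U V (C.φ (i + 1))
          = co U V (-(l • C.φ (i + 2)) + m • C.φ (i + 1)) := by
        rw [co_add, co_neg, co_smul, co_smul]
      rw [e, hDco, ← pr_pt, ← pr_pt, ← hui]
      exact h1)
    (by
      intro h0
      apply hf
      rw [← fu_co hd f, h0]
      simp [fu])
    (by
      intro h0
      apply hf'
      rw [← fu_co hd f', h0]
      simp [fu])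
    ⟨l2, m2, hl2, hm2, by rw [hfe, co_add, co_neg, co_smul, co_smul]⟩
    ⟨l3, m3, hl3, hm3, by rw [hfe', co_add, co_neg, co_smul, co_smul]⟩
    (by
      rw [hDco, ← pr_pt, ← pr_pt, ← hu1, ← hq2]
      exact ht)
    (by
      rw [hDco, ← pr_pt, ← pr_pt, ← hu2, ← hq3]
      exact ht')
    (by
      intro x y hy
      rw [hD, ← pr_fu_pt hd, pt_sub, ← hq2]
      exact hs_pair K hne hK (hD12 _ hy) _)
    (by
      intro x y hy
      rw [hD, ← pr_fu_pt hd, pt_sub, ← hq3]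
      exact hs_pair K hne hK (hD13 _ hy) _)
    (by
      intro x
      rw [hD, ← pr_fu_pt hd, pt_sub, ← hq2, ← hq3]
      exact hs_pair K hne hK hD23 _)
    (co U V a) (co U V b) (co U V c)
    (by rw [← co_add, ← co_add, habc]; simp [co, pr])
  obtain ⟨y1, -, -, hy1⟩ := hPx p hp
  obtain ⟨y2, -, -, hy2⟩ := hPx r hr
  obtain ⟨y3, -, -, hy3⟩ := hPx w hw
  have fin := key y1 (by show pt U V y1 ∈ P; rw [← hy1]; exact hp)
    y2 (by show pt U V y2 ∈ P; rw [← hy2]; exact hr)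
    y3 (by show pt U V y3 ∈ P; rw [← hy3]; exact hw)
  rw [← pr_pt, ← pr_pt, ← pr_pt, ← hy1, ← hy2, ← hy3, hco, hco, hco] at fin
  have e : pr a (C.t i) + pr b (C.t i) + pr c (C.t i) = 0 := by
    rw [← pr_add_left, ← pr_add_left, habc, pr_zero_left]
  linarith

end H40Dol
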