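import Pool.Agent.H40.Dol.Defs

/-!
Targets of the modules.  The module M* should be written in its own file and may import
`Pool.Agent.H40.Dol.Defs` and the modules it depends on.
-/

namespace H40Dol.Targets

open H40Dol Pointwise

/-- HS: basic facts on the support function. -/
theorem hs_facts (K : Set (ℝ × ℝ)) (hne : K.Nonempty) (hK : IsCompact K) :
    (∀ a, ∀ p ∈ K, pr a p ≤ hs K a) ∧ (∀ a, ∃ p ∈ K, hs K a = pr a p) ∧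
    (∀ a b, hs K (a + b) ≤ hs K a + hs K b) ∧
    (∀ t : ℝ, 0 ≤ t → ∀ a, hs K (t • a) = t * hs K a) ∧ Continuous (hs K) := by
  sorry

/-- M1 (core lemma, in the coordinates `u_2 = (1,0)`, `u_3 = (0,1)`, `u_1 = (-A,-B)`). -/
theorem mcore
    (A B : ℝ) (hA : 0 < A) (hB : 0 < B)
    (h : ℝ × ℝ → ℝ) (hadd : ∀ a b, h (a + b) ≤ h a + h b)
    (hsmul : ∀ t : ℝ, 0 ≤ t → ∀ a, h (t • a) = t * h a)
    (h2 : ∀ a, pr a (1, 0) ≤ h a) (h3 : ∀ a, pr a (0, 1) ≤ h a)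
    (hD2 : ∀ a, pr a (A, 1 + B) ≤ h a + h (-a)) (hD3 : ∀ a, pr a (-(1 + A), -B) ≤ h a + h (-a))
    (φ1 φ2 φ3 : ℝ × ℝ)
    (n1 : pr φ1 (1, -1) = 1) (n2 : pr φ2 (A, 1 + B) = 1) (n3 : pr φ3 (-(1 + A), -B) = 1)
    (w1 : h φ1 + h (-φ1) = 1) (w2 : h φ2 + h (-φ2) = 1) (w3 : h φ3 + h (-φ3) = 1)
    (z12 : pr φ1 (A, 1 + B) < 0) (z13 : pr φ1 (-(1 + A), -B) < 0)
    (z21 : pr φ2 (1, -1) < 0) (z23 : pr φ2 (-(1 + A), -B) < 0)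
    (z31 : pr φ3 (1, -1) < 0) (z32 : pr φ3 (A, 1 + B) < 0)
    (hc3 : ∀ c : ℝ × ℝ, c.1 < 0 → c.2 < 0 → ∀ s : ℝ, 0 < s → s < 1 →
      ¬ (h c < (1 - s) * pr c (-A, -B) ∧ (1 - s) * pr c (-A, -B) < (2 * s - 1) * (-c.1) ∧
        (1 - s) * pr c (-A, -B) < (2 * s - 1) * (-c.2)))
    (s : ℝ) (P : Set (ℝ × ℝ)) (q2 q3 f2 f3 : ℝ × ℝ)
    (hP : ∀ p ∈ P, 0 ≤ p.1 ∧ 0 ≤ p.2)
    (hq2 : ∃ g d : ℝ, 0 ≤ g ∧ 0 ≤ d ∧ q2 = g • ((0 : ℝ), (1 : ℝ)) + d • (-A, -B))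
    (hq3 : ∃ g d : ℝ, 0 ≤ g ∧ 0 ≤ d ∧ q3 = g • (-A, -B) + d • ((1 : ℝ), (0 : ℝ)))
    (hcap : ∀ p ∈ P, ∀ l m : ℝ, 0 ≤ l → 0 ≤ m →
      pr (-(l • φ3) + m • φ2) p ≤ h (-(l • φ3) + m • φ2) + h (-(-(l • φ3) + m • φ2))
        + s * pr (-(l • φ3) + m • φ2) (-A, -B))
    (hf2 : f2 ≠ 0) (hf3 : f3 ≠ 0)
    (hf2E : ∃ l m : ℝ, 0 ≤ l ∧ 0 ≤ m ∧ f2 = -(l • φ1) + m • φ3)
    (hf3E : ∃ l m : ℝ, 0 ≤ l ∧ 0 ≤ m ∧ f3 = -(l • φ2) + m • φ1)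
    (ht2 : h f2 + h (-f2) + s * pr f2 (1, 0) ≤ pr f2 q2)
    (ht3 : h f3 + h (-f3) + s * pr f3 (0, 1) ≤ pr f3 q3)
    (hD12 : ∀ a, ∀ p ∈ P, pr a (p - q2) ≤ h a + h (-a))
    (hD13 : ∀ a, ∀ p ∈ P, pr a (p - q3) ≤ h a + h (-a))
    (hD23 : ∀ a, pr a (q2 - q3) ≤ h a + h (-a))
    (a b c : ℝ × ℝ) (habc : a + b + c = 0)
    (p : ℝ × ℝ) (hp : p ∈ P) (q : ℝ × ℝ) (hq : q ∈ P) (r : ℝ × ℝ) (hr : r ∈ P) :
    pr a p + pr b q + pr c r ≤ h a + h b + h c := by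
  sorry

/-- M2 (choice of the apex; pure real algebra plus connectedness of an interval). -/
theorem lemmaO (α β a b : ℝ) (hα : 0 < α) (hβ : 0 < β) (hk : α + β ≤ 1) (hab : a + b = α + β)
    (ha : α * β ≤ a) (hb : α * β ≤ b) :
    ∃ o1 o2 o3 : ℝ, 0 < o1 ∧ 0 < o2 ∧ 0 < o3 ∧ o1 + o2 + o3 = 1 ∧
      (∀ X Y s : ℝ, 1 < X → 1 < Y → 0 < s → s < 1 → o2 * X + o3 * Y = 1 →
        s < (2 * s - 1) * X → s < (2 * s - 1) * Y →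
        ¬ (s < β * Y - a * (Y - X) ∧ s < β * X + b * (Y - X))) ∧
      (∀ X Y s : ℝ, 1 < X → 1 < Y → 0 < s → s < 1 → o3 * X + o1 * Y = 1 →
        s < (2 * s - 1) * X → s < (2 * s - 1) * Y →
        ¬ (s < α * X ∧ s < (a - β) * X + β * Y)) ∧
      (∀ X Y s : ℝ, 1 < X → 1 < Y → 0 < s → s < 1 → o2 * X + o1 * Y = 1 →
        s < (2 * s - 1) * X → s < (2 * s - 1) * Y →
        ¬ (s < α * X ∧ s < (b - β) * X + β * Y)) := by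
  sorry

/-- M3 (T-shape): three sides on the boundary of `K - K`, with the translates aligned. -/
theorem tshape (K : Set (ℝ × ℝ)) (hK : IsCompact K) (hc : StrictConvex ℝ K)
    (hi : (interior K).Nonempty) :
    ∃ e w x0 y0 x1 y1 x2 y2 : ℝ × ℝ, ∃ α : ℝ,
      x0 ∈ K ∧ y0 ∈ K ∧ x1 ∈ K ∧ y1 ∈ K ∧ x2 ∈ K ∧ y2 ∈ K ∧
      x0 - y0 = e ∧ x1 - y1 = w ∧ x2 - y2 = w - e ∧
      e ∈ frontier (K - K) ∧ w ∈ frontier (K - K) ∧ w - e ∈ frontier (K - K) ∧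
      0 < dt e w ∧ y2 - y1 = α • e := by
  sorry

/-- M4: existence of a good configuration (from M2 and M3). -/
theorem exists_config (K : Set (ℝ × ℝ)) (hK : IsCompact K) (hc : StrictConvex ℝ K)
    (hi : (interior K).Nonempty) : Nonempty (Config K) := by
  sorry

/-- M5: colourful KKM lemma in the plane. -/
theorem kkm (A : Fin 3 → Fin 3 → Set (ℝ × ℝ)) (hcl : ∀ m i, IsClosed (A m i))
    (hcov : ∀ m z, ∃ i, z ∈ A m i) (M : ℝ)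
    (h0 : ∀ m z, M ≤ ‖z‖ → z ∈ A m 0 → 1 ≤ 2 * z.1 - z.2)
    (h1 : ∀ m z, M ≤ ‖z‖ → z ∈ A m 1 → 1 ≤ 2 * z.2 - z.1)
    (h2 : ∀ m z, M ≤ ‖z‖ → z ∈ A m 2 → 1 ≤ -z.1 - z.2) :
    ∃ π : Equiv.Perm (Fin 3), ∃ z, ∀ i, z ∈ A (π i) i := by
  sorry

/-- M6: Helly and separation. -/
theorem not_cov (K : Set (ℝ × ℝ)) (hne : K.Nonempty) (hK : IsCompact K) (hc : Convex ℝ K)
    (P : Set (ℝ × ℝ)) (hP : P.Finite) (hn : ¬ Cov K P) :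
    ∃ a b c : ℝ × ℝ, a + b + c = 0 ∧ ∃ p ∈ P, ∃ q ∈ P, ∃ r ∈ P,
      hs K a + hs K b + hs K c < pr a p + pr b q + pr c r := by
  sorry

/-- M7a: the core lemma for a configuration and an index `i` (from HS, M1 and M6). -/
theorem mgen (K : Set (ℝ × ℝ)) (hne : K.Nonempty) (hK : IsCompact K) (hc : Convex ℝ K)
    (C : Config K) (i : Fin 3) (s : ℝ) (P : Set (ℝ × ℝ)) (hPf : P.Finite) (q q' f f' : ℝ × ℝ)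
    (hP : P ⊆ C.S i) (hq : q ∈ C.S (i + 1)) (hq' : q' ∈ C.S (i + 2))
    (hcap : ∀ p ∈ P, ∀ l m : ℝ, 0 ≤ l → 0 ≤ m →
      pr (-(l • C.φ (i + 2)) + m • C.φ (i + 1)) p ≤
        hs K (-(l • C.φ (i + 2)) + m • C.φ (i + 1)) + hs K (-(-(l • C.φ (i + 2)) + m • C.φ (i + 1)))
        + s * pr (-(l • C.φ (i + 2)) + m • C.φ (i + 1)) (C.u i))
    (hf : f ≠ 0) (hf' : f' ≠ 0)
    (hfE : ∃ l m : ℝ, 0 ≤ l ∧ 0 ≤ m ∧ f = -(l • C.φ i) + m • C.φ (i + 2))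
    (hfE' : ∃ l m : ℝ, 0 ≤ l ∧ 0 ≤ m ∧ f' = -(l • C.φ (i + 1)) + m • C.φ i)
    (ht : hs K f + hs K (-f) + s * pr f (C.u (i + 1)) ≤ pr f q)
    (ht' : hs K f' + hs K (-f') + s * pr f' (C.u (i + 2)) ≤ pr f' q')
    (hD12 : ∀ p ∈ P, p - q ∈ K - K) (hD13 : ∀ p ∈ P, p - q' ∈ K - K) (hD23 : q - q' ∈ K - K) :
    Cov K P := by
  sorry

/-- M7b: the (M) lemma (from HS and M7a). -/
theorem mlemma (K : Set (ℝ × ℝ)) (hne : K.Nonempty) (hK : IsCompact K) (hc : Convex ℝ K)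
    (C : Config K) (P : Fin 3 → Set (ℝ × ℝ)) (hPf : ∀ i, (P i).Finite)
    (hP : ∀ i, P i ⊆ C.S i)
    (hD : ∀ i j, i ≠ j → ∀ p ∈ P i, ∀ q ∈ P j, p - q ∈ K - K) : ∃ i, Cov K (P i) := by
  sorry

/-- M8: the theorem for strictly convex bodies (from M4, M5, M7b). -/
theorem strict_case (K : Set (ℝ × ℝ)) (hK : IsCompact K) (hc : StrictConvex ℝ K)
    (hi : (interior K).Nonempty) (X : Fin 3 → Set (ℝ × ℝ)) (hX : ∀ i, (X i).Finite)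
    (hD : ∀ i j, i ≠ j → ∀ p ∈ X i, ∀ q ∈ X j, p - q ∈ K - K) :
    ∃ m, ∃ v : Fin 3 → ℝ × ℝ, ∀ x ∈ X m, ∃ i, x - v i ∈ K := by
  sorry

/-- M9: the theorem for all compact convex sets (from M8, by outer approximation). -/
theorem general_case (K : Set (ℝ × ℝ)) (hne : K.Nonempty) (hK : IsCompact K) (hc : Convex ℝ K)
    (X : Fin 3 → Set (ℝ × ℝ)) (hX : ∀ i, (X i).Finite)
    (hD : ∀ i j, i ≠ j → ∀ p ∈ X i, ∀ q ∈ X j, p - q ∈ K - K) :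
    ∃ m, ∃ v : Fin 3 → ℝ × ℝ, ∀ x ∈ X m, ∃ i, x - v i ∈ K := by
  sorry

end H40Dol.Targets
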